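import Pool.Agent.Lib.MP_c4588b_lc.Core

set_option autoImplicit false

/-!
# The certificate checker (written with explicit recursors, so that the kernel evaluates it quickly)

Thresholds are coded by natural numbers: the code `2 * x + o` stands for the condition `a ≥ x / QS` if `o = 0` and
the condition `a > x / QS` if `o = 1`.
-/

namespace Pool.Agent.PW

/-- unit of the thresholds -/
def QS : ℕ := 720720
/-- unit of the densities -/
def SC : ℕ := 167610643200
/-- `SC * QS` -/
def SCQ : ℕ := 120800342767104000

/-- maximum -/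
def mx (a b : ℕ) : ℕ := Bool.rec (motive := fun _ => ℕ) a b (Nat.ble a b)

/-- Scan the gaps (digits base 64 of `G`, plus one) of a task with threshold `num/den`:
`R` is the slack after the last occurrence, `t` its position, `M` the mask of the positions so far.
The result is the final mask, or `0` on failure. -/
def scan (num den lim endt : ℕ) (n : ℕ) : ℕ → ℕ → ℕ → ℕ → ℕ :=
  Nat.rec (motive := fun _ => ℕ → ℕ → ℕ → ℕ → ℕ)
    (fun _ R t M => Bool.rec (motive := fun _ => ℕ) 0
      (Bool.rec (motive := fun _ => ℕ) 0 M (Nat.beq t endt)) (Nat.beq R num))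
    (fun _ ih G R t M =>
      (fun g => (fun x =>
        Bool.rec (motive := fun _ => ℕ) 0
          (ih (Nat.div G 64) (Nat.sub num x) (Nat.add t g) (Nat.lor M (Nat.pow 2 (Nat.add t g))))
          (Nat.ble x lim)) (Nat.sub (Nat.mul den g) R)) (Nat.succ (Nat.mod G 64))) n

/-- Check of a base schedule: list of group codes `e = m + 16 * c`, period `p`, data `D`, mask `acc` of
the days already used. -/
def baseOK (p : ℕ) (L : List ℕ) : ℕ → ℕ → Bool :=
  List.rec (motive := fun _ => ℕ → ℕ → Bool)
    (fun _ _ => true)
    (fun e _ ih D acc =>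
      (fun c den off n G =>
        (fun M => (fun Rm =>
          Bool.rec (motive := fun _ => Bool) false
            (Bool.rec (motive := fun _ => Bool) false
              (Bool.rec (motive := fun _ => Bool) false
                (Bool.rec (motive := fun _ => Bool) false
                  (ih (Nat.shiftRight G (Nat.mul 6 n)) (Nat.lor acc Rm))
                  (Nat.beq (Nat.land acc Rm) 0))
                (Nat.ble 1 M))
              (Nat.ble (Nat.succ off) p))
            (Nat.ble den (Nat.div c 2)))
          (Nat.lor (Nat.mod M (Nat.pow 2 p)) (Nat.shiftRight M p)))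
        (scan (Nat.div c 2) den (Nat.sub (Nat.add den (Nat.mod c 2)) 1) (Nat.add off p) n G (Nat.div c 2) off 0))
      (Nat.div e 16) (Nat.mul QS (Nat.mod e 16)) (Nat.mod D 1024) (Nat.mod (Nat.div D 1024) 1024)
        (Nat.div D 1048576)) L

/-- the list of group codes -/
def decH (g : ℕ) : ℕ → List ℕ :=
  Nat.rec (motive := fun _ => ℕ → List ℕ) (fun _ => [])
    (fun _ ih H => List.cons (Nat.mod H 1073741824) (ih (Nat.div H 1073741824))) g

/-- move `m` entries from `suf` to `pre`, raising the lower thresholds to `cur` -/
def mv (cur m : ℕ) : List (ℕ × ℕ) → List (ℕ × ℕ) → (List (ℕ × ℕ) → List (ℕ × ℕ) → Bool) → Bool :=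
  Nat.rec (motive := fun _ => List (ℕ × ℕ) → List (ℕ × ℕ) → (List (ℕ × ℕ) → List (ℕ × ℕ) → Bool) → Bool)
    (fun pre suf k => k pre suf)
    (fun _ ih pre suf k => List.rec (motive := fun _ => Bool) false
      (fun a rest _ => ih ((mx a.1 cur, a.2) :: pre) rest k) suf) m

/-- raise all lower thresholds to `cur` -/
def mapCur (cur : ℕ) (l : List (ℕ × ℕ)) : List (ℕ × ℕ) :=
  List.rec (motive := fun _ => List (ℕ × ℕ)) [] (fun a _ ih => (mx a.1 cur, a.2) :: ih) l

/-- reverse `pre` onto `acc`, raising the inverse bounds to `v` -/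
def revMax (v : ℕ) (pre : List (ℕ × ℕ)) : List (ℕ × ℕ) → List (ℕ × ℕ) :=
  List.rec (motive := fun _ => List (ℕ × ℕ) → List (ℕ × ℕ)) (fun acc => acc)
    (fun a _ ih acc => ih ((a.1, mx a.2 v) :: acc)) pre

/-- `acc +` the total increase of the inverse bounds of `pre` when raised to `v` -/
def sumInc (v : ℕ) (pre : List (ℕ × ℕ)) : ℕ → ℕ :=
  List.rec (motive := fun _ => ℕ → ℕ) (fun acc => acc)
    (fun a _ ih acc => ih (Nat.add acc (Nat.sub v a.2))) pre

/-- sum of the inverse bounds -/
def sumW (l : List (ℕ × ℕ)) : ℕ := List.rec (motive := fun _ => ℕ) 0 (fun a _ ih => Nat.add a.2 ih) l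

/-- process a layout: push the children that are not contradictory -/
def kids (BS tot : ℕ) (L : List ℕ) : List (ℕ × ℕ) → ℕ → List (ℕ × ℕ) → List (List (ℕ × ℕ)) →
    (List (List (ℕ × ℕ)) → Bool) → Bool :=
  List.rec (motive := fun _ => List (ℕ × ℕ) → ℕ → List (ℕ × ℕ) → List (List (ℕ × ℕ)) →
      (List (List (ℕ × ℕ)) → Bool) → Bool)
    (fun _ _ suf stk k => List.rec (motive := fun _ => Bool) (k stk) (fun _ _ _ => false) suf)
    (fun e _ ih pre cur suf stk k =>
      List.rec (motive := fun _ => Bool) false (fun a rest _ =>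
        (fun m c =>
          Bool.rec (motive := fun _ => Bool)
            ((fun v =>
              Bool.rec (motive := fun _ => Bool)
                (mv c m pre suf (fun pre' suf' => ih pre' c suf'
                  (revMax v pre ((mx a.1 cur, mx a.2 v) :: mapCur cur rest) :: stk) k))
                (mv c m pre suf (fun pre' suf' => ih pre' c suf' stk k))
                (Nat.ble BS (sumInc v pre (Nat.add tot (Nat.sub v a.2)))))
              (Nat.div SCQ (Nat.div c 2)))
            (mv cur m pre suf (fun pre' suf' => ih pre' cur suf' stk k))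
            (Nat.ble c (mx a.1 cur))) (Nat.mod e 16) (Nat.div e 16)) suf) L

/-- equality test -/
def beqSt (s : List (ℕ × ℕ)) : List (ℕ × ℕ) → Bool :=
  List.rec (motive := fun _ => List (ℕ × ℕ) → Bool)
    (fun t => List.rec (motive := fun _ => Bool) true (fun _ _ _ => false) t)
    (fun a _ ih t => List.rec (motive := fun _ => Bool) false (fun b t' _ =>
      Bool.rec (motive := fun _ => Bool) false
        (Bool.rec (motive := fun _ => Bool) false (ih t') (Nat.beq a.2 b.2)) (Nat.beq a.1 b.1)) t) s

/-- equality test for stacks -/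
def beqStk (s : List (List (ℕ × ℕ))) : List (List (ℕ × ℕ)) → Bool :=
  List.rec (motive := fun _ => List (List (ℕ × ℕ)) → Bool)
    (fun t => List.rec (motive := fun _ => Bool) true (fun _ _ _ => false) t)
    (fun a _ ih t => List.rec (motive := fun _ => Bool) false (fun b t' _ =>
      Bool.rec (motive := fun _ => Bool) false (ih t') (beqSt a b)) t) s

/-- Run the nodes on a stack of states; the final stack must be `exp`.  A node is a number
`D * 2^14 + p * 8 + g` together with a number `H` packing the `g` group codes. -/
def run (BS : ℕ) (exp : List (List (ℕ × ℕ))) (nds : List (ℕ × ℕ)) : List (List (ℕ × ℕ)) → Bool :=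
  List.rec (motive := fun _ => List (List (ℕ × ℕ)) → Bool)
    (fun stk => beqStk stk exp)
    (fun nd _ ih stk =>
      List.rec (motive := fun _ => Bool) false (fun st stk' _ =>
        (fun L => Bool.rec (motive := fun _ => Bool) false
          (kids BS (sumW st) L [] 0 st stk' ih)
          (baseOK (Nat.mod (Nat.div nd.2 8) 2048) L (Nat.div nd.2 16384) 0))
        (decH (Nat.mod nd.2 8) nd.1)) stk) nds

end Pool.Agent.PW
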