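import Mathlib

set_option autoImplicit false

/-!
# Pinwheel scheduling with real periods: counting, splitting, potentials

`cnt T m w` counts the days of `T` among the `w` days `m, m+1, …, m+w-1`.
`Valid T a`: a task of real period `a` may be performed on the days of `T`.
-/

namespace Pool.Agent.PW

open Classical in
/-- number of days of `T` in `[m, m+w)` -/
noncomputable def cnt (T : ℤ → Prop) (m : ℤ) : ℕ → ℕ
  | 0 => 0
  | w + 1 => cnt T m w + (if T (m + w) then 1 else 0)

/-- the days `T` serve a task of real period `a` -/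
def Valid (T : ℤ → Prop) (a : ℝ) : Prop :=
  ∀ (l : ℕ) (m : ℤ) (w : ℕ), (l : ℝ) * a ≤ w → l ≤ cnt T m w

theorem Valid.mono {T : ℤ → Prop} {a b : ℝ} (h : Valid T a) (hab : a ≤ b) : Valid T b := by
  intro l m w hw
  exact h l m w (le_trans (mul_le_mul_of_nonneg_left hab (Nat.cast_nonneg l)) hw)

theorem cnt_mono_set {T U : ℤ → Prop} (h : ∀ t, T t → U t) (m : ℤ) (w : ℕ) :
    cnt T m w ≤ cnt U m w := by
  induction w with
  | zero => exact le_rfl
  | succ w ih =>
    simp only [cnt]
    have := h (m + w)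
    split_ifs <;> first | omega | tauto

theorem Valid.mono_set {T U : ℤ → Prop} {a : ℝ} (h : Valid T a) (hTU : ∀ t, T t → U t) :
    Valid U a := fun l m w hw => le_trans (h l m w hw) (cnt_mono_set hTU m w)

open Classical in
theorem cnt_eq_card (T : ℤ → Prop) (m : ℤ) (w : ℕ) :
    cnt T m w = ((Finset.Ico m (m + w)).filter T).card := by
  induction w with
  | zero => simp [cnt]
  | succ w ih =>
    have : Finset.Ico m (m + ((w + 1 : ℕ) : ℤ)) = insert (m + w) (Finset.Ico m (m + w)) := by
      ext x; simp only [Finset.mem_Ico, Finset.mem_insert]; push_cast; omega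
    rw [this, Finset.filter_insert]
    simp only [cnt, ih]
    split_ifs with h
    · rw [Finset.card_insert_of_notMem]
      simp
    · simp

/-! ## splitting a task -/

open Classical in
theorem exists_count (T : ℤ → Prop) : ∃ F : ℤ → ℤ, ∀ t, F (t + 1) = F t + (if T t then 1 else 0) := by
  let f : ℤ → ℤ := fun t => if T t then 1 else 0
  -- F t = sum over [0,t) for t ≥ 0, - sum over [t,0) for t<0
  refine ⟨fun t => ∑ x ∈ Finset.Ico 0 t, f x - ∑ x ∈ Finset.Ico t 0, f x, fun t => ?_⟩
  show _ = _ + f t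
  rcases le_or_gt 0 t with h | h
  · have h1 : Finset.Ico (0 : ℤ) (t + 1) = insert t (Finset.Ico 0 t) := by
      ext x; simp only [Finset.mem_Ico, Finset.mem_insert]; omega
    have h2 : Finset.Ico t (0 : ℤ) = ∅ := Finset.Ico_eq_empty (by omega)
    have h3 : Finset.Ico (t + 1) (0 : ℤ) = ∅ := Finset.Ico_eq_empty (by omega)
    simp only [h1, h2, h3, Finset.sum_empty]
    rw [Finset.sum_insert (by simp)]
    ring
  · have h1 : Finset.Ico t (0 : ℤ) = insert t (Finset.Ico (t + 1) 0) := by
      ext x; simp only [Finset.mem_Ico, Finset.mem_insert]; omega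
    have h2 : Finset.Ico (0 : ℤ) t = ∅ := Finset.Ico_eq_empty (by omega)
    have h3 : Finset.Ico (0 : ℤ) (t + 1) = ∅ := Finset.Ico_eq_empty (by omega)
    simp only [h1, h2, h3, Finset.sum_empty]
    rw [Finset.sum_insert (by simp)]
    ring

open Classical in
theorem count_add {T : ℤ → Prop} {F : ℤ → ℤ} (hF : ∀ t, F (t + 1) = F t + (if T t then 1 else 0))
    (m : ℤ) (w : ℕ) : F (m + w) = F m + cnt T m w := by
  induction w with
  | zero => simp [cnt]
  | succ w ih =>
    have : m + ((w + 1 : ℕ) : ℤ) = (m + w) + 1 := by push_cast; ring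
    rw [this, hF, ih]
    simp only [cnt]
    split_ifs <;> push_cast <;> ring

/-- number of integers `≡ r mod M` below `x` (up to a constant) -/
def G (M r : ℤ) (x : ℤ) : ℤ := x / M + (if r < x % M then 1 else 0)

theorem G_succ {M r : ℤ} (hr0 : 0 ≤ r) (hr : r < M) (x : ℤ) :
    G M r (x + 1) = G M r x + (if x % M = r then 1 else 0) := by
  have hM : 0 < M := by omega
  have h1 := Int.emod_add_mul_ediv x M
  have h2 := Int.emod_nonneg x (ne_of_gt hM)
  have h3 := Int.emod_lt_of_pos x hM
  unfold G
  set q := x / M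
  set s := x % M
  rcases lt_or_ge (s + 1) M with h | h
  · have hq : (x + 1) / M = q := by
      rw [Int.ediv_eq_iff_of_pos hM]
      constructor <;> nlinarith
    have hs : (x + 1) % M = s + 1 := by
      have := Int.emod_add_mul_ediv (x + 1) M
      rw [hq] at this; linarith
    rw [hq, hs]
    split_ifs <;> omega
  · have hs' : s = M - 1 := by omega
    have hq : (x + 1) / M = q + 1 := by
      rw [Int.ediv_eq_iff_of_pos hM]
      constructor <;> nlinarith
    have hs : (x + 1) % M = 0 := by
      have := Int.emod_add_mul_ediv (x + 1) M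
      rw [hq] at this; linarith
    rw [hq, hs]
    split_ifs <;> omega

theorem G_mono {M r : ℤ} (hr0 : 0 ≤ r) (hr : r < M) {x y : ℤ} (hxy : x ≤ y) : G M r x ≤ G M r y := by
  obtain ⟨n, rfl⟩ := Int.le.dest hxy
  clear hxy
  induction n with
  | zero => simp
  | succ n ih =>
    have : x + ((n + 1 : ℕ) : ℤ) = (x + n) + 1 := by push_cast; ring
    rw [this, G_succ hr0 hr]
    split_ifs <;> omega

theorem G_add_mul {M r : ℤ} (hr0 : 0 ≤ r) (hr : r < M) (x l : ℤ) :
    G M r (x + l * M) = G M r x + l := by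
  have hM : M ≠ 0 := by omega
  unfold G
  rw [Int.add_mul_ediv_right _ _ hM, Int.add_mul_emod_self_right]
  ring

open Classical in
theorem Valid.split {T : ℤ → Prop} {b a : ℝ} {F : ℤ → ℤ}
    (hF : ∀ t, F (t + 1) = F t + (if T t then 1 else 0)) (hT : Valid T b) {M r : ℕ}
    (hr : r < M) (hab : (M : ℝ) * b ≤ a) :
    Valid (fun t => T t ∧ F t % (M : ℤ) = r) a := by
  intro l m w hw
  have h1 : l * M ≤ cnt T m w := by
    apply hT
    have : (l : ℝ) * (M * b) ≤ l * a := mul_le_mul_of_nonneg_left hab (Nat.cast_nonneg l)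
    push_cast
    linarith
  have h2 : ∀ w : ℕ, (cnt (fun t => T t ∧ F t % (M : ℤ) = r) m w : ℤ)
      = G M r (F (m + w)) - G M r (F m) := by
    intro w
    induction w with
    | zero => simp [cnt]
    | succ w ih =>
      have : m + ((w + 1 : ℕ) : ℤ) = (m + w) + 1 := by push_cast; ring
      rw [this, hF]
      simp only [cnt]
      push_cast
      rw [ih]
      by_cases hTw : T (m + w)
      · simp only [hTw, true_and, if_true]
        rw [G_succ (by omega) (by omega)]
        split_ifs <;> ring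
      · simp [hTw]
  have h3 := h2 w
  rw [count_add hF m w] at h3
  have h4 : G M r (F m + (l : ℤ) * M) ≤ G M r (F m + cnt T m w) :=
    G_mono (by omega) (by omega) (by have : ((l * M : ℕ) : ℤ) ≤ cnt T m w := by exact_mod_cast h1
                                     push_cast at this; linarith)
  rw [G_add_mul (by omega) (by omega)] at h4
  omega

/-! ## schedules -/

/-- the instance `(a i)_{i ∈ s}` is schedulable -/
def SchOn {ι : Type*} (s : Finset ι) (a : ι → ℝ) : Prop :=
  ∃ S : ℤ → ι, ∀ i ∈ s, Valid (fun t => S t = i) (a i)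

/-- A schedule for `b` on `u` gives one for `a` on `s`, when the tasks of `s` are distributed over the
tasks of `u`, at most `M k` of them to task `k`, with periods at least `M k * b k`. -/
theorem SchOn.merge {ι κ : Type*} [Nonempty ι] {s : Finset ι} {u : Finset κ} {a : ι → ℝ} {b : κ → ℝ}
    (h : SchOn u b) (c : ι → κ) (r : ι → ℕ) (M : κ → ℕ)
    (hc : ∀ i ∈ s, c i ∈ u) (hr : ∀ i ∈ s, r i < M (c i))
    (hinj : ∀ i ∈ s, ∀ j ∈ s, c i = c j → r i = r j → i = j)
    (hab : ∀ i ∈ s, (M (c i) : ℝ) * b (c i) ≤ a i) : SchOn s a := by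
  classical
  obtain ⟨S, hS⟩ := h
  choose F hF using fun k : κ => exists_count (fun t => S t = k)
  let P : ℤ → ι → Prop := fun t i => i ∈ s ∧ S t = c i ∧ F (c i) t % (M (c i) : ℤ) = r i
  let S' : ℤ → ι := fun t => if hx : ∃ i, P t i then hx.choose else Classical.arbitrary ι
  have key : ∀ t i, P t i → S' t = i := by
    intro t i hi
    have hx : ∃ i, P t i := ⟨i, hi⟩
    have h1 : P t (S' t) := by
      simp only [S', dif_pos hx]; exact hx.choose_spec
    obtain ⟨a1, a2, a3⟩ := h1
    obtain ⟨b1, b2, b3⟩ := hi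
    have hcc : c (S' t) = c i := by rw [← a2, ← b2]
    refine hinj _ a1 _ b1 hcc ?_
    rw [hcc] at a3
    have : (r (S' t) : ℤ) = r i := by rw [← a3, ← b3]
    exact_mod_cast this
  refine ⟨S', fun i hi => ?_⟩
  have hv := (hS (c i) (hc i hi)).split (hF (c i)) (hr i hi) (hab i hi)
  exact hv.mono_set (fun t ht => key t i ⟨hi, ht.1, ht.2⟩)

/-- shrinking the index set and increasing the periods -/
theorem SchOn.mono {ι : Type*} {s u : Finset ι} {a b : ι → ℝ} (h : SchOn u b) (hsu : s ⊆ u)
    (hab : ∀ i ∈ s, b i ≤ a i) : SchOn s a := by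
  obtain ⟨S, hS⟩ := h
  exact ⟨S, fun i hi => (hS i (hsu hi)).mono (hab i hi)⟩

/-! ## potentials -/

open Classical in
/-- A bounded potential certifies a set of days.  `lo = 1` for a closed threshold, `lo = 0` for an
open one. -/
theorem valid_of_potential {T : ℤ → Prop} {num den lo : ℤ} (hden : 0 < den) (q : ℤ → ℤ)
    (hlo : ∀ t, lo ≤ q t) (hhi : ∀ t, q t ≤ num)
    (hstep : ∀ t, q (t + 1) + den ≤ q t + (if T t then num else 0)) {b : ℝ}
    (hb : (lo = 1 ∧ (num : ℝ) / den ≤ b) ∨ (lo = 0 ∧ (num : ℝ) / den < b)) : Valid T b := by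
  intro l m w hw
  have h1 : ∀ w : ℕ, q (m + w) + w * den ≤ q m + num * cnt T m w := by
    intro w
    induction w with
    | zero => simp [cnt]
    | succ w ih =>
      have h2 := hstep (m + w)
      have : m + ((w + 1 : ℕ) : ℤ) = (m + w) + 1 := by push_cast; ring
      rw [this]
      simp only [cnt]
      split_ifs at h2 ⊢ with hT <;> push_cast <;> nlinarith
  by_contra hcon
  push Not at hcon
  have hl1 : 1 ≤ l := by omega
  have hc1 : (cnt T m w : ℤ) ≤ l - 1 := by omega
  have hnum : 0 ≤ num := by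
    have a1 := hlo 0
    have a2 := hhi 0
    rcases hb with ⟨h, _⟩ | ⟨h, _⟩ <;> omega
  have h2 := h1 w
  have h3 := hlo (m + w)
  have h4 := hhi m
  have h5 : num * (cnt T m w : ℤ) ≤ num * (l - 1) := mul_le_mul_of_nonneg_left hc1 hnum
  have h6 : lo + w * den ≤ num * l := by nlinarith
  have h6' : (lo : ℝ) + w * den ≤ num * l := by exact_mod_cast h6
  have hden' : (0 : ℝ) < den := by exact_mod_cast hden
  have hl1' : (1 : ℝ) ≤ l := by exact_mod_cast hl1
  have h7 : (l : ℝ) * b * den ≤ w * den := mul_le_mul_of_nonneg_right hw hden'.le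
  rcases hb with ⟨h, hb⟩ | ⟨h, hb⟩
  · rw [div_le_iff₀ hden'] at hb
    subst h
    have : (l : ℝ) * num ≤ l * (b * den) := mul_le_mul_of_nonneg_left hb (by linarith)
    push_cast at h6'
    nlinarith
  · rw [div_lt_iff₀ hden'] at hb
    subst h
    have : (l : ℝ) * num < l * (b * den) := mul_lt_mul_of_pos_left hb (by linarith)
    push_cast at h6'
    nlinarith

end Pool.Agent.PW
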