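import Pool.Agent.Lib.MP_c4588b_lc.Core

set_option autoImplicit false

/-!
# Folding: reduction to instances with bounded periods
-/

namespace Pool.Agent.PW

theorem fold_step {ι : Type*} [DecidableEq ι] [Nonempty ι] {s : Finset ι} {a : ι → ℝ} {ix iy : ι}
    (hx : ix ∈ s) (hy : iy ∈ s) (hne : ix ≠ iy) (hxy : a ix ≤ a iy)
    (h : SchOn (s.erase iy) (Function.update a ix (a ix / 2))) : SchOn s a := by
  refine h.merge (fun i => if i = iy then ix else i) (fun i => if i = iy then 1 else 0)
    (fun k => if k = ix then 2 else 1) ?_ ?_ ?_ ?_
  · intro i hi
    by_cases h1 : i = iy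
    · simp [h1, hne, hx]
    · simp [h1, hi]
  · intro i hi
    by_cases h1 : i = iy
    · simp [h1]
    · simp only [h1, if_false]; split_ifs <;> omega
  · intro i hi j hj hc hr
    by_cases h1 : i = iy <;> by_cases h2 : j = iy
    · rw [h1, h2]
    · simp [h1, h2] at hr
    · simp [h1, h2] at hr
    · simpa [h1, h2] using hc
  · intro i hi
    by_cases h1 : i = iy
    · subst h1
      simp only [if_true, Function.update_self]
      push_cast; linarith
    · by_cases h2 : i = ix
      · subst h2
        simp only [h1, if_false, if_true, Function.update_self]
        push_cast; linarith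
      · simp [h1, h2]

/-- Folding at `θ`: it is enough to schedule the instances with all periods at most `θ` and density
below `5/6 + 1/θ`.  `P` is a property of the periods shared by all numbers above `θ/2`. -/
theorem fold_reduce {ι : Type*} [DecidableEq ι] [Nonempty ι] {θ hi : ℝ} {P : ℝ → Prop} (hθ : 0 < θ)
    (hP : ∀ x, θ / 2 < x → P x) (hhi : hi ≤ θ)
    (H : ∀ (s : Finset ι) (a : ι → ℝ), (∀ i ∈ s, P (a i)) → (∀ i ∈ s, a i ≤ θ) →
      (∃ i ∈ s, a i ≤ hi) → (∑ i ∈ s, 1 / a i) < 5 / 6 + 1 / θ → SchOn s a) :
    ∀ (n : ℕ) (s : Finset ι) (a : ι → ℝ), (s.filter (fun i => θ < a i)).card = n →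
      (∀ i ∈ s, P (a i)) →
      ((∃ i ∈ s, a i ≤ hi) ∨ hi = θ ∧ s.Nonempty) →
      (∑ i ∈ s, 1 / a i) < 5 / 6 + 1 / θ →
      (∀ i ∈ s, θ < a i → (∑ i ∈ s, 1 / a i) < 5 / 6 + 1 / a i) → SchOn s a := by
  intro n
  induction n using Nat.strong_induction_on with
  | _ n ih =>
    intro s a hn hlo hex hD hinv
    rcases Nat.lt_or_ge n 1 with h0 | h1
    · -- no large element
      have h0 : n = 0 := by omega
      subst h0
      have hle : ∀ i ∈ s, a i ≤ θ := by
        intro i hi'
        by_contra hcon
        push Not at hcon
        have : i ∈ s.filter (fun i => θ < a i) := Finset.mem_filter.mpr ⟨hi', hcon⟩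
        rw [Finset.card_eq_zero] at hn
        rw [hn] at this
        exact absurd this (Finset.notMem_empty _)
      refine H s a hlo hle ?_ hD
      rcases hex with h | ⟨h, i, hi'⟩
      · exact h
      · exact ⟨i, hi', by rw [h]; exact hle i hi'⟩
    · have hne : s.Nonempty := by
        rw [← Finset.card_pos]
        calc 0 < n := h1
          _ = _ := hn.symm
          _ ≤ _ := Finset.card_filter_le _ _
      obtain ⟨iy, hy, hymax⟩ := Finset.exists_max_image s a hne
      have hyθ : θ < a iy := by
        have : (s.filter (fun i => θ < a i)).Nonempty := by
          rw [← Finset.card_pos]; omega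
        obtain ⟨i, hi'⟩ := this
        rw [Finset.mem_filter] at hi'
        exact lt_of_lt_of_le hi'.2 (hymax i hi'.1)
      have hy0 : 0 < a iy := lt_trans hθ hyθ
      rcases Nat.lt_or_ge n 2 with h2 | h2
      · -- exactly one large element: replace it by `θ`
        have hn1 : n = 1 := by omega
        subst hn1
        have hother : ∀ i ∈ s, i ≠ iy → a i ≤ θ := by
          intro i hi' hne'
          by_contra hcon
          push Not at hcon
          obtain ⟨z, hz⟩ := Finset.card_eq_one.mp hn
          have e1 : i ∈ s.filter (fun i => θ < a i) := Finset.mem_filter.mpr ⟨hi', hcon⟩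
          have e2 : iy ∈ s.filter (fun i => θ < a i) := Finset.mem_filter.mpr ⟨hy, hyθ⟩
          rw [hz, Finset.mem_singleton] at e1 e2
          exact hne' (e1.trans e2.symm)
        have hS : SchOn s (Function.update a iy θ) := by
          have hLOθ : P θ := hP θ (by linarith)
          refine H s _ ?_ ?_ ?_ ?_
          · intro i hi'
            by_cases h : i = iy
            · subst h; simpa using hLOθ
            · simpa [h] using hlo i hi'
          · intro i hi'
            by_cases h : i = iy
            · subst h; simp
            · simpa [h] using hother i hi' h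
          · rcases hex with ⟨i, hi', hlt⟩ | ⟨h, i, hi'⟩
            · have : i ≠ iy := by
                rintro rfl; linarith
              exact ⟨i, hi', by simpa [this] using hlt⟩
            · exact ⟨iy, hy, by simpa using h.symm.le⟩
          · have e1 := hinv iy hy hyθ
            rw [← Finset.add_sum_erase _ _ hy] at e1 ⊢
            have e2 : ∑ x ∈ s.erase iy, 1 / Function.update a iy θ x = ∑ x ∈ s.erase iy, 1 / a x := by
              apply Finset.sum_congr rfl
              intro x hx
              rw [Finset.mem_erase] at hx
              simp [hx.1]
            rw [e2]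
            simp only [Function.update_self]
            linarith
        refine hS.mono (le_refl s) ?_
        intro i hi'
        by_cases h : i = iy
        · subst h; simpa using hyθ.le
        · simp [h]
      · -- at least two large elements
        have hcard : 1 < (s.filter (fun i => θ < a i)).card := by omega
        have hne2 : (s.erase iy).Nonempty := by
          rw [← Finset.card_pos, Finset.card_erase_of_mem hy]
          have := Finset.card_filter_le s (fun i => θ < a i)
          omega
        obtain ⟨ix, hx', hxmax⟩ := Finset.exists_max_image (s.erase iy) a hne2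
        have hx := Finset.mem_of_mem_erase hx'
        have hxy : ix ≠ iy := Finset.ne_of_mem_erase hx'
        have hxθ : θ < a ix := by
          obtain ⟨z1, hz1, z2, hz2, hz⟩ := Finset.one_lt_card.mp hcard
          rw [Finset.mem_filter] at hz1 hz2
          rcases eq_or_ne z1 iy with e | e
          · have : z2 ∈ s.erase iy := Finset.mem_erase.mpr ⟨fun e' => hz (e.trans e'.symm), hz2.1⟩
            exact lt_of_lt_of_le hz2.2 (hxmax _ this)
          · have : z1 ∈ s.erase iy := Finset.mem_erase.mpr ⟨e, hz1.1⟩
            exact lt_of_lt_of_le hz1.2 (hxmax _ this)
        have hx0 : 0 < a ix := lt_trans hθ hxθ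
        have hle : a ix ≤ a iy := hymax ix hx
        refine fold_step hx hy hxy hle ?_
        have hsum : ∑ i ∈ s.erase iy, 1 / Function.update a ix (a ix / 2) i
            = ∑ i ∈ s, 1 / a i + 1 / a ix - 1 / a iy := by
          rw [← Finset.add_sum_erase s _ hy, ← Finset.add_sum_erase (s.erase iy) _ hx',
            ← Finset.add_sum_erase (s.erase iy) (fun i => 1 / a i) hx']
          have e2 : ∑ x ∈ (s.erase iy).erase ix, 1 / Function.update a ix (a ix / 2) x
              = ∑ x ∈ (s.erase iy).erase ix, 1 / a x := by
            apply Finset.sum_congr rfl
            intro x hx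
            rw [Finset.mem_erase] at hx
            simp [hx.1]
          rw [e2]
          simp only [Function.update_self]
          field_simp
          ring
        have hDx : ∑ i ∈ s.erase iy, 1 / Function.update a ix (a ix / 2) i < 5 / 6 + 1 / a ix := by
          rw [hsum]
          have := hinv iy hy hyθ
          linarith
        refine ih _ ?_ (s.erase iy) _ rfl ?_ ?_ ?_ ?_
        · -- number of large elements decreases
          rw [← hn]
          apply Finset.card_lt_card
          rw [Finset.ssubset_iff_of_subset]
          · refine ⟨iy, Finset.mem_filter.mpr ⟨hy, hyθ⟩, ?_⟩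
            simp
          · intro i hi'
            rw [Finset.mem_filter, Finset.mem_erase] at hi'
            rw [Finset.mem_filter]
            refine ⟨hi'.1.2, ?_⟩
            by_cases h : i = ix
            · subst h; exact hxθ
            · simpa [h] using hi'.2
        · intro i hi'
          by_cases h : i = ix
          · subst h
            simp only [Function.update_self]
            exact hP _ (by linarith)
          · simpa [h] using hlo i (Finset.mem_of_mem_erase hi')
        · rcases hex with ⟨i, hi', hlt⟩ | ⟨h, _⟩
          · left
            have e1 : i ≠ iy := by rintro rfl; linarith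
            have e2 : i ≠ ix := by rintro rfl; linarith
            exact ⟨i, Finset.mem_erase.mpr ⟨e1, hi'⟩, by simpa [e2] using hlt⟩
          · right; exact ⟨h, hne2⟩
        · refine lt_trans hDx ?_
          have := one_div_lt_one_div_of_lt hθ hxθ
          linarith
        · intro i hi' hlt
          refine lt_of_lt_of_le hDx ?_
          have hle' : Function.update a ix (a ix / 2) i ≤ a ix := by
            by_cases h : i = ix
            · subst h; simp only [Function.update_self]; linarith
            · simpa [h] using hxmax i hi'
          have := one_div_le_one_div_of_le (lt_trans hθ hlt) hle'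
          linarith

end Pool.Agent.PW
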