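import Pool.Agent.Lib.MP_c4588b_lc.Data.All

set_option autoImplicit false

/-!
# Every real-valued pinwheel instance of density at most `5/6` is schedulable
-/

namespace Pool.Agent.PW

theorem sat_iff_even {k : ℕ} {x : ℝ} (h : (k : ℝ) / QS ≤ x) : sat (2 * k) x := by
  left
  refine ⟨by omega, ?_⟩
  have : 2 * k / 2 = k := by omega
  rw [this]; exact h

theorem sat_iff_odd {k : ℕ} {x : ℝ} (h : (k : ℝ) / QS < x) : sat (2 * k + 1) x := by
  right
  refine ⟨by omega, ?_⟩
  have : (2 * k + 1) / 2 = k := by omega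
  rw [this]; exact h

theorem schOn_of_density {ι : Type*} [DecidableEq ι] [Nonempty ι] (s : Finset ι) (a : ι → ℝ)
    (hne : s.Nonempty) (ha : ∀ i ∈ s, 1 ≤ a i) (hD : (∑ i ∈ s, 1 / a i) ≤ 5 / 6) : SchOn s a := by
  obtain ⟨i0, hi0, hmin⟩ := Finset.exists_min_image s a hne
  have hpos : ∀ i ∈ s, 0 < a i := fun i hi => lt_of_lt_of_le one_pos (ha i hi)
  have h65 : 6 / 5 ≤ a i0 := by
    have h1 : 1 / a i0 ≤ ∑ i ∈ s, 1 / a i :=
      Finset.single_le_sum (f := fun i => 1 / a i) (fun i hi => by
        have := hpos i hi; positivity) hi0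
    have h2 : 1 / a i0 ≤ 5 / 6 := le_trans h1 hD
    have h3 := hpos i0 hi0
    rw [div_le_iff₀ h3] at h2
    linarith
  have hQ : (QS : ℝ) = 720720 := by norm_num [QS]
  rcases le_or_gt (a i0) 2 with h | h
  · refine A_region s a hpos (fun i hi => ?_) (Or.inl ⟨i0, hi0, by norm_num; exact h⟩) hD
    refine sat_iff_even (k := 864864) ?_
    rw [hQ]; push_cast; have := hmin i hi; linarith
  rcases le_or_gt (a i0) (27 / 10) with h1 | h1
  · refine B_region s a hpos (fun i hi => ?_) (Or.inl ⟨i0, hi0, by push_cast; exact h1⟩) hD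
    refine sat_iff_odd (k := 1441440) ?_
    rw [hQ]; push_cast; have := hmin i hi; linarith
  rcases le_or_gt (a i0) 3 with h2 | h2
  · refine C_region s a hpos (fun i hi => ?_) (Or.inl ⟨i0, hi0, by norm_num; exact h2⟩) hD
    refine sat_iff_even (k := 1945944) ?_
    rw [hQ]; push_cast; have := hmin i hi; linarith
  rcases le_or_gt (a i0) (7 / 2) with h3 | h3
  · refine D_region s a hpos (fun i hi => ?_) (Or.inl ⟨i0, hi0, by push_cast; exact h3⟩) hD
    refine sat_iff_odd (k := 2162160) ?_
    rw [hQ]; push_cast; have := hmin i hi; linarith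
  rcases le_or_gt (a i0) (15 / 4) with h4 | h4
  · refine E_region s a hpos (fun i hi => ?_) (Or.inl ⟨i0, hi0, by push_cast; exact h4⟩) hD
    refine sat_iff_even (k := 2522520) ?_
    rw [hQ]; push_cast; have := hmin i hi; linarith
  rcases le_or_gt (a i0) 4 with h5 | h5
  · refine F_region s a hpos (fun i hi => ?_) (Or.inl ⟨i0, hi0, by norm_num; exact h5⟩) hD
    refine sat_iff_even (k := 2702700) ?_
    rw [hQ]; push_cast; have := hmin i hi; linarith
  rcases le_or_gt (a i0) (9 / 2) with h6 | h6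
  · refine G_region s a hpos (fun i hi => ?_) (Or.inl ⟨i0, hi0, by push_cast; exact h6⟩) hD
    refine sat_iff_odd (k := 2882880) ?_
    rw [hQ]; push_cast; have := hmin i hi; linarith
  rcases le_or_gt (a i0) 5 with h7 | h7
  · refine H_region s a hpos (fun i hi => ?_) (Or.inl ⟨i0, hi0, by norm_num; exact h7⟩) hD
    refine sat_iff_even (k := 3243240) ?_
    rw [hQ]; push_cast; have := hmin i hi; linarith
  · refine I_region s a hpos (fun i hi => ?_) (Or.inr ⟨by norm_num, hne⟩) hD
    refine sat_iff_odd (k := 3603600) ?_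
    rw [hQ]; push_cast; have := hmin i hi; linarith

end Pool.Agent.PW
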