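import Pool.Agent.Lib.MP_c4588b_lc.Sound2

set_option autoImplicit false

/-!
# Soundness of the branch-and-bound check
-/

namespace Pool.Agent.PW

/-- the entry `(l, w)` bounds the period `x`: code `l` is satisfied and `1/x ≥ w/SC` -/
def Ent (p : ℕ × ℕ) (x : ℝ) : Prop := sat p.1 x ∧ (p.2 : ℝ) * x ≤ SC

/-- the instance `as` lies in the state `st` -/
def InSt (st : List (ℕ × ℕ)) (as : List ℝ) : Prop := List.Forall₂ Ent st as

/-- every instance of density below `BS / SC` in the state is schedulable -/
def Good (BS : ℕ) (st : List (ℕ × ℕ)) : Prop :=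
  ∀ as : List ℝ, as.Pairwise (· ≤ ·) → (∀ x ∈ as, 0 < x) → InSt st as →
    (SC : ℝ) * (as.map (fun x => 1 / x)).sum < BS → Fam as (fun _ => True)

theorem sumW_cons (a : ℕ × ℕ) (l : List (ℕ × ℕ)) : sumW (a :: l) = a.2 + sumW l := rfl
theorem sumW_nil : sumW [] = 0 := rfl

theorem sumW_append (l₁ l₂ : List (ℕ × ℕ)) : sumW (l₁ ++ l₂) = sumW l₁ + sumW l₂ := by
  induction l₁ with
  | nil => simp [sumW_nil]
  | cons a l ih => rw [List.cons_append, sumW_cons, ih, sumW_cons]; ring

theorem sumW_le {st : List (ℕ × ℕ)} {as : List ℝ} (h : InSt st as) (hpos : ∀ x ∈ as, 0 < x) :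
    (sumW st : ℝ) ≤ SC * (as.map (fun x => 1 / x)).sum := by
  induction h with
  | nil => simp [sumW_nil]
  | @cons p x st as hp _ ih =>
    rw [sumW_cons, List.map_cons, List.sum_cons]
    push_cast
    have hx : 0 < x := hpos x (by simp)
    have h1 := ih (fun y hy => hpos y (by simp [hy]))
    have h2 : (p.2 : ℝ) ≤ SC * (1 / x) := by
      rw [mul_one_div, le_div_iff₀ hx]; exact hp.2
    linarith

theorem sumInc_eq (v : ℕ) (pre : List (ℕ × ℕ)) : ∀ acc, sumInc v pre acc + sumW pre
    = acc + sumW (pre.map (fun a => (a.1, max a.2 v))) := by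
  induction pre with
  | nil => intro acc; simp [sumW_nil]; rfl
  | cons a l ih =>
    intro acc
    have h1 : sumInc v (a :: l) acc = sumInc v l (acc + (v - a.2)) := rfl
    rw [h1, List.map_cons, sumW_cons, sumW_cons]
    have := ih (acc + (v - a.2))
    simp only at this ⊢
    rcases le_total a.2 v with h | h
    · rw [max_eq_right h]; omega
    · rw [max_eq_left h]; omega

theorem revMax_eq (v : ℕ) (pre : List (ℕ × ℕ)) : ∀ acc, revMax v pre acc
    = (pre.map (fun a => (a.1, max a.2 v))).reverse ++ acc := by
  induction pre with
  | nil => intro acc; rfl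
  | cons a l ih =>
    intro acc
    have h1 : revMax v (a :: l) acc = revMax v l ((a.1, mx a.2 v) :: acc) := rfl
    rw [h1, ih, mx_eq]
    simp

theorem mapCur_eq (cur : ℕ) (l : List (ℕ × ℕ)) :
    mapCur cur l = l.map (fun a => (max a.1 cur, a.2)) := by
  induction l with
  | nil => rfl
  | cons a l ih =>
    have h1 : mapCur cur (a :: l) = (mx a.1 cur, a.2) :: mapCur cur l := rfl
    rw [h1, ih, mx_eq]
    rfl

theorem sumW_map_fst (f : ℕ × ℕ → ℕ) (l : List (ℕ × ℕ)) :
    sumW (l.map (fun a => (f a, a.2))) = sumW l := by
  induction l with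
  | nil => rfl
  | cons a l ih => rw [List.map_cons, sumW_cons, sumW_cons, ih]

theorem sumW_reverse (l : List (ℕ × ℕ)) : sumW l.reverse = sumW l := by
  induction l with
  | nil => rfl
  | cons a l ih => rw [List.reverse_cons, sumW_append, ih, sumW_cons, sumW_cons, sumW_nil]; ring

theorem mv_sound (cur : ℕ) (m : ℕ) : ∀ (pre suf : List (ℕ × ℕ))
    (k : List (ℕ × ℕ) → List (ℕ × ℕ) → Bool), mv cur m pre suf k = true →
    ∃ taken suf', suf = taken ++ suf' ∧ taken.length = m ∧
      k ((taken.map (fun a => (max a.1 cur, a.2))).reverse ++ pre) suf' = true := by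
  induction m with
  | zero =>
    intro pre suf k h
    have h' : k pre suf = true := h
    exact ⟨[], suf, rfl, rfl, by simpa using h'⟩
  | succ m ih =>
    intro pre suf k h
    cases suf with
    | nil => exact absurd h (by intro h; exact Bool.noConfusion h)
    | cons a rest =>
      have h1 : mv cur (m + 1) pre (a :: rest) k = mv cur m ((mx a.1 cur, a.2) :: pre) rest k := rfl
      rw [h1] at h
      obtain ⟨taken, suf', e1, e2, e3⟩ := ih _ _ _ h
      refine ⟨a :: taken, suf', by rw [e1]; rfl, by simp [e2], ?_⟩
      rw [mx_eq] at e3
      simpa using e3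

theorem kids_nil (BS tot : ℕ) (pre : List (ℕ × ℕ)) (cur : ℕ) (suf : List (ℕ × ℕ))
    (stk : List (List (ℕ × ℕ))) (k : List (List (ℕ × ℕ)) → Bool) :
    kids BS tot [] pre cur suf stk k
      = List.rec (motive := fun _ => Bool) (k stk) (fun _ _ _ => false) suf := rfl

theorem kids_cons_nil (BS tot e : ℕ) (L : List ℕ) (pre : List (ℕ × ℕ)) (cur : ℕ)
    (stk : List (List (ℕ × ℕ))) (k : List (List (ℕ × ℕ)) → Bool) :
    kids BS tot (e :: L) pre cur [] stk k = false := rfl

theorem kids_cons_cons (BS tot e : ℕ) (L : List ℕ) (pre : List (ℕ × ℕ)) (cur : ℕ)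
    (a : ℕ × ℕ) (rest : List (ℕ × ℕ))
    (stk : List (List (ℕ × ℕ))) (k : List (List (ℕ × ℕ)) → Bool) :
    kids BS tot (e :: L) pre cur (a :: rest) stk k =
      (let m := e % 16; let c := e / 16; let v := SCQ / (c / 2)
        Bool.rec (motive := fun _ => Bool)
              (Bool.rec (motive := fun _ => Bool)
                (mv c m pre (a :: rest) (fun pre' suf' => kids BS tot L pre' c suf'
                  (revMax v pre ((mx a.1 cur, mx a.2 v) :: mapCur cur rest) :: stk) k))
                (mv c m pre (a :: rest) (fun pre' suf' => kids BS tot L pre' c suf' stk k))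
                (Nat.ble BS (sumInc v pre (tot + (v - a.2)))))
            (mv cur m pre (a :: rest) (fun pre' suf' => kids BS tot L pre' cur suf' stk k))
            (Nat.ble c (mx a.1 cur))) := rfl

theorem Ent.raise {p : ℕ × ℕ} {x : ℝ} {cur : ℕ} (h : Ent p x) (hc : sat cur x) :
    Ent (max p.1 cur, p.2) x := ⟨sat_max h.1 hc, h.2⟩

theorem inSt_raise {st : List (ℕ × ℕ)} {as : List ℝ} {cur : ℕ} (h : InSt st as)
    (hc : ∀ x ∈ as, sat cur x) : InSt (st.map (fun a => (max a.1 cur, a.2))) as := by
  induction h with
  | nil => exact List.Forall₂.nil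
  | @cons p x st as hp _ ih =>
    exact List.Forall₂.cons (hp.raise (hc x (by simp))) (ih (fun y hy => hc y (by simp [hy])))

theorem inSt_max {st : List (ℕ × ℕ)} {as : List ℝ} {v : ℕ} (h : InSt st as)
    (hv : ∀ x ∈ as, (v : ℝ) * x ≤ SC) : InSt (st.map (fun a => (a.1, max a.2 v))) as := by
  induction h with
  | nil => exact List.Forall₂.nil
  | @cons p x st as hp _ ih =>
    refine List.Forall₂.cons ⟨hp.1, ?_⟩ (ih (fun y hy => hv y (by simp [hy])))
    have h1 := hp.2
    have h2 := hv x (by simp)
    rcases le_total p.2 v with h | h
    · simp only [max_eq_right h]; exact h2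
    · simp only [max_eq_left h]; exact h1

/-- moving a block from the suffix to the prefix -/
theorem move_block {pre suf' taken : List (ℕ × ℕ)} {as1 as2 : List ℝ} {cur m : ℕ}
    (htaken : taken.length = m) (hpre : InSt pre as1.reverse) (hsuf : InSt (taken ++ suf') as2)
    (hcur : ∀ x ∈ as2, sat cur x) :
    ∃ blk rest, as2 = blk ++ rest ∧ blk.length = m ∧
      InSt ((taken.map (fun a => (max a.1 cur, a.2))).reverse ++ pre) (as1 ++ blk).reverse ∧
      InSt suf' rest := by
  refine ⟨as2.take m, as2.drop m, (List.take_append_drop m as2).symm, ?_, ?_, ?_⟩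
  · have h1 := List.Forall₂.length_eq hsuf
    rw [List.length_append, htaken] at h1
    rw [List.length_take]; omega
  · have h1 := List.forall₂_take m hsuf
    rw [← htaken, List.take_left'  rfl] at h1
    have h2 : InSt taken (as2.take m) := by rw [← htaken]; exact h1
    have h3 := inSt_raise (cur := cur) h2 (fun x hx => hcur x (List.mem_of_mem_take hx))
    rw [List.reverse_append]
    exact List.rel_append (List.rel_reverse h3) hpre
  · have h1 := List.forall₂_drop m hsuf
    rw [← htaken, List.drop_left' rfl] at h1
    rw [← htaken]; exact h1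

theorem SCQ_eq : SCQ = SC * QS := by unfold SCQ SC QS; norm_num

/-- the inverse bound obtained from an unsatisfied threshold -/
theorem inv_bound {c : ℕ} {x : ℝ} (hx : 0 ≤ x) (h : x ≤ ((c / 2 : ℕ) : ℝ) / QS) :
    ((SCQ / (c / 2) : ℕ) : ℝ) * x ≤ SC := by
  rcases Nat.eq_zero_or_pos (c / 2) with h0 | h0
  · rw [h0, Nat.div_zero]; push_cast; rw [zero_mul]; exact Nat.cast_nonneg _
  · have h0' : (0 : ℝ) < ((c / 2 : ℕ) : ℝ) := by exact_mod_cast h0
    have h1 : ((SCQ / (c / 2) : ℕ) : ℝ) ≤ (SCQ : ℝ) / ((c / 2 : ℕ) : ℝ) := Nat.cast_div_le
    calc ((SCQ / (c / 2) : ℕ) : ℝ) * x ≤ (SCQ : ℝ) / ((c / 2 : ℕ) : ℝ) * (((c / 2 : ℕ) : ℝ) / QS) :=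
          mul_le_mul h1 h hx (by positivity)
      _ = SC := by
          rw [SCQ_eq]; push_cast
          field_simp [QS_pos.ne']

theorem kids_sound (BS tot : ℕ) (k : List (List (ℕ × ℕ)) → Bool) (L : List ℕ) :
    ∀ (pre : List (ℕ × ℕ)) (cur : ℕ) (suf : List (ℕ × ℕ)) (stk : List (List (ℕ × ℕ))),
      kids BS tot L pre cur suf stk k = true →
      ∃ stk', k stk' = true ∧ (∀ s ∈ stk, s ∈ stk') ∧
        ((∀ s ∈ stk', Good BS s) → ∀ as1 as2 : List ℝ, (as1 ++ as2).Pairwise (· ≤ ·) →
          (∀ x ∈ as1 ++ as2, 0 < x) → InSt pre as1.reverse → InSt suf as2 →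
          (∀ x ∈ as2, sat cur x) → tot = sumW pre + sumW suf →
          (SC : ℝ) * ((as1 ++ as2).map (fun x => 1 / x)).sum < BS →
          Fam (as1 ++ as2) (fun _ => True) ∨ Blocks L as2) := by
  induction L with
  | nil =>
    intro pre cur suf stk h
    rw [kids_nil] at h
    cases suf with
    | cons a rest => exact absurd h (by intro h; exact Bool.noConfusion h)
    | nil =>
      refine ⟨stk, h, fun s hs => hs, ?_⟩
      intro _ as1 as2 _ _ _ hsuf _ _ _
      right
      have := List.Forall₂.length_eq hsuf
      simp only [List.length_nil] at this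
      exact List.length_eq_zero_iff.mp this.symm
  | cons e L ih =>
    intro pre cur suf stk h
    cases suf with
    | nil => rw [kids_cons_nil] at h; exact Bool.noConfusion h
    | cons a rest =>
      rw [kids_cons_cons] at h
      simp only at h
      set m := e % 16 with hm
      set c := e / 16 with hc
      set v := SCQ / (c / 2) with hv
      rw [mx_eq a.1 cur, mx_eq a.2 v, mapCur_eq, revMax_eq] at h
      -- common step: after the block has been moved
      have fin : ∀ (cur' : ℕ) (stk0 : List (List (ℕ × ℕ))), 
          mv cur' m pre (a :: rest) (fun pre' suf' => kids BS tot L pre' cur' suf' stk0 k) = true →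
          ∃ stk', k stk' = true ∧ (∀ s ∈ stk0, s ∈ stk') ∧
            ((∀ s ∈ stk', Good BS s) → ∀ as1 as2 : List ℝ, (as1 ++ as2).Pairwise (· ≤ ·) →
              (∀ x ∈ as1 ++ as2, 0 < x) → InSt pre as1.reverse → InSt (a :: rest) as2 →
              (∀ x ∈ as2, sat cur' x) → (∀ x ∈ as2, sat c x) → tot = sumW pre + sumW (a :: rest) →
              (SC : ℝ) * ((as1 ++ as2).map (fun x => 1 / x)).sum < BS →
              Fam (as1 ++ as2) (fun _ => True) ∨ Blocks (e :: L) as2) := by
        intro cur' stk0 hmv
        obtain ⟨taken, suf', e1, e2, e3⟩ := mv_sound cur' m _ _ _ hmv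
        obtain ⟨stk', hk, hsub, hIH⟩ := ih _ _ _ _ e3
        refine ⟨stk', hk, hsub, ?_⟩
        intro hgood as1 as2 hsort hpos hpre hsuf hcur hcsat htot hD
        rw [e1] at hsuf
        obtain ⟨blk, rest', f1, f2, f3, f4⟩ := move_block e2 hpre hsuf hcur
        have hassoc : as1 ++ as2 = (as1 ++ blk) ++ rest' := by rw [f1, List.append_assoc]
        have htot' : tot = sumW ((taken.map (fun a => (max a.1 cur', a.2))).reverse ++ pre)
            + sumW suf' := by
          rw [sumW_append, sumW_reverse, sumW_map_fst (fun a => max a.1 cur'), htot, e1, sumW_append]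
          ring
        have := hIH hgood (as1 ++ blk) rest' (by rw [← hassoc]; exact hsort)
          (by rw [← hassoc]; exact hpos) f3 f4 (fun x hx => hcur x (by rw [f1]; simp [hx])) htot'
          (by rw [← hassoc]; exact hD)
        rcases this with hfam | hblk
        · left; rw [hassoc]; exact hfam
        · right
          -- the first element bounds the block from below
          cases as2 with
          | nil =>
            have hb : blk = [] := by
              have := congrArg List.length f1
              simp only [List.length_nil, List.length_append] at this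
              rw [← List.length_eq_zero_iff]; omega
            -- impossible: InSt of a nonempty state
            have := List.Forall₂.length_eq hsuf
            rw [← e1] at this
            simp at this
          | cons x xs =>
            refine ⟨blk, rest', x, f1, f2, hcsat x (by simp), ?_, hblk⟩
            intro y hy
            have hy2 : y ∈ x :: xs := by rw [f1]; simp [hy]
            rcases List.mem_cons.mp hy2 with hyx | hyx
            · rw [hyx]
            · have := (List.pairwise_append.mp hsort).2.1
              exact (List.pairwise_cons.mp this).1 y hyx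
      cases h1 : Nat.ble c (max a.1 cur)
      · -- threshold not known to be satisfied
        rw [h1] at h
        -- the child state
        have hchild : ∀ (as1 : List ℝ) (x : ℝ) (xs : List ℝ), (as1 ++ (x :: xs)).Pairwise (· ≤ ·) →
            (∀ y ∈ as1 ++ (x :: xs), 0 < y) → InSt pre as1.reverse → InSt (a :: rest) (x :: xs) →
            (∀ y ∈ x :: xs, sat cur y) → ¬ sat c x →
            InSt ((pre.map (fun a => (a.1, max a.2 v))).reverse ++
              ((max a.1 cur, max a.2 v) :: rest.map (fun a => (max a.1 cur, a.2)))) (as1 ++ (x :: xs)) := by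
          intro as1 x xs hsort hpos hpre hsuf hcur hns
          have hxle := le_of_not_sat hns
          have hle1 : ∀ y ∈ as1, y ≤ x := fun y hy =>
            (List.pairwise_append.mp hsort).2.2 y hy x (by simp)
          have hvx : ∀ y, 0 ≤ y → y ≤ x → (v : ℝ) * y ≤ SC := fun y hy hyx =>
            inv_bound hy (le_trans hyx hxle)
          have h2 : InSt (pre.map (fun a => (a.1, max a.2 v))) as1.reverse := by
            refine inSt_max hpre ?_
            intro y hy
            rw [List.mem_reverse] at hy
            exact hvx y (hpos y (by simp [hy])).le (hle1 y hy)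
          have h3 := List.rel_reverse h2
          rw [List.reverse_reverse] at h3
          refine List.rel_append h3 ?_
          cases hsuf with
          | cons ha hr =>
            refine List.Forall₂.cons ⟨sat_max ha.1 (hcur x (by simp)), ?_⟩
              (inSt_raise hr (fun y hy => hcur y (by simp [hy])))
            have h4 := hvx x (hpos x (by simp)).le le_rfl
            have h5 := ha.2
            rcases le_total a.2 v with h | h
            · simp only [max_eq_right h]; exact h4
            · simp only [max_eq_left h]; exact h5
        cases h2 : Nat.ble BS (sumInc v pre (tot + (v - a.2)))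
        · -- child pushed
          rw [h2] at h
          obtain ⟨stk', hk, hsub, hfin⟩ := fin c _ h
          refine ⟨stk', hk, fun s hs => hsub s (List.mem_cons_of_mem _ hs), ?_⟩
          intro hgood as1 as2 hsort hpos hpre hsuf hcur htot hD
          cases as2 with
          | nil => have := List.Forall₂.length_eq hsuf; simp at this
          | cons x xs =>
            by_cases hs : sat c x
            · have hall : ∀ y ∈ x :: xs, sat c y := by
                intro y hy
                rcases List.mem_cons.mp hy with hyx | hyx
                · rw [hyx]; exact hs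
                · exact hs.up ((List.pairwise_cons.mp (List.pairwise_append.mp hsort).2.1).1 y hyx)
              exact hfin hgood as1 (x :: xs) hsort hpos hpre hsuf hall hall htot hD
            · left
              have hin := hchild as1 x xs hsort hpos hpre hsuf hcur hs
              exact hgood _ (hsub _ (List.mem_cons_self)) _ hsort hpos hin hD
        · -- child contradictory
          rw [h2] at h
          obtain ⟨stk', hk, hsub, hfin⟩ := fin c _ h
          refine ⟨stk', hk, hsub, ?_⟩
          intro hgood as1 as2 hsort hpos hpre hsuf hcur htot hD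
          cases as2 with
          | nil => have := List.Forall₂.length_eq hsuf; simp at this
          | cons x xs =>
            by_cases hs : sat c x
            · have hall : ∀ y ∈ x :: xs, sat c y := by
                intro y hy
                rcases List.mem_cons.mp hy with hyx | hyx
                · rw [hyx]; exact hs
                · exact hs.up ((List.pairwise_cons.mp (List.pairwise_append.mp hsort).2.1).1 y hyx)
              exact hfin hgood as1 (x :: xs) hsort hpos hpre hsuf hall hall htot hD
            · exfalso
              have hin := hchild as1 x xs hsort hpos hpre hsuf hcur hs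
              have h3 := sumW_le hin hpos
              have h4 : BS ≤ sumInc v pre (tot + (v - a.2)) := Nat.le_of_ble_eq_true h2
              have h5 := sumInc_eq v pre (tot + (v - a.2))
              rw [sumW_append, sumW_reverse, sumW_cons, sumW_map_fst (fun a => max a.1 cur)] at h3
              have h6 : sumInc v pre (tot + (v - a.2)) =
                  sumW (pre.map (fun a => (a.1, max a.2 v))) + (max a.2 v + sumW rest) := by
                rw [sumW_cons] at htot
                rcases le_total a.2 v with h | h
                · rw [max_eq_right h]; omega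
                · rw [max_eq_left h]; omega
              rw [← h6] at h3
              have h7 : (BS : ℝ) ≤ (sumInc v pre (tot + (v - a.2)) : ℕ) := by exact_mod_cast h4
              linarith
      · -- threshold known to be satisfied
        rw [h1] at h
        obtain ⟨stk', hk, hsub, hfin⟩ := fin cur _ h
        refine ⟨stk', hk, hsub, ?_⟩
        intro hgood as1 as2 hsort hpos hpre hsuf hcur htot hD
        have hle : c ≤ max a.1 cur := Nat.le_of_ble_eq_true h1
        cases as2 with
        | nil => have := List.Forall₂.length_eq hsuf; simp at this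
        | cons x xs =>
          have hx : sat c x := by
            cases hsuf with
            | cons ha hr => exact (sat_max ha.1 (hcur x (by simp))).mono hle
          have hall : ∀ y ∈ x :: xs, sat c y := by
            intro y hy
            rcases List.mem_cons.mp hy with hyx | hyx
            · rw [hyx]; exact hx
            · exact hx.up ((List.pairwise_cons.mp (List.pairwise_append.mp hsort).2.1).1 y hyx)
          exact hfin hgood as1 (x :: xs) hsort hpos hpre hsuf hcur hall htot hD

theorem beqSt_eq (s : List (ℕ × ℕ)) : ∀ t, beqSt s t = true → s = t := by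
  induction s with
  | nil =>
    intro t h
    cases t with
    | nil => rfl
    | cons b t => exact absurd h (by intro h; exact Bool.noConfusion h)
  | cons a s ih =>
    intro t h
    cases t with
    | nil => exact absurd h (by intro h; exact Bool.noConfusion h)
    | cons b t =>
      have h' : Bool.rec (motive := fun _ => Bool) false
        (Bool.rec (motive := fun _ => Bool) false (beqSt s t) (Nat.beq a.2 b.2)) (Nat.beq a.1 b.1)
          = true := h
      obtain ⟨h1, h'⟩ := rec_true h'
      obtain ⟨h2, h'⟩ := rec_true h'
      rw [ih t h', Prod.ext (Nat.eq_of_beq_eq_true h1) (Nat.eq_of_beq_eq_true h2)]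

theorem beqStk_eq (s : List (List (ℕ × ℕ))) : ∀ t, beqStk s t = true → s = t := by
  induction s with
  | nil =>
    intro t h
    cases t with
    | nil => rfl
    | cons b t => exact absurd h (by intro h; exact Bool.noConfusion h)
  | cons a s ih =>
    intro t h
    cases t with
    | nil => exact absurd h (by intro h; exact Bool.noConfusion h)
    | cons b t =>
      have h' : Bool.rec (motive := fun _ => Bool) false (beqStk s t) (beqSt a b) = true := h
      obtain ⟨h1, h'⟩ := rec_true h'
      rw [ih t h', beqSt_eq a b h1]

theorem run_cons_cons (BS : ℕ) (exp : List (List (ℕ × ℕ))) (nd : ℕ × ℕ) (nds : List (ℕ × ℕ))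
    (st : List (ℕ × ℕ)) (stk : List (List (ℕ × ℕ))) :
    run BS exp (nd :: nds) (st :: stk) =
      (let L := decH (nd.2 % 8) nd.1
       Bool.rec (motive := fun _ => Bool) false
          (kids BS (sumW st) L [] 0 st stk (run BS exp nds))
          (baseOK ((nd.2 / 8) % 2048) L (nd.2 / 16384) 0)) := rfl

theorem run_cons_nil (BS : ℕ) (exp : List (List (ℕ × ℕ))) (nd : ℕ × ℕ) (nds : List (ℕ × ℕ)) :
    run BS exp (nd :: nds) [] = false := rfl

theorem run_sound {BS : ℕ} {exp : List (List (ℕ × ℕ))} {nds : List (ℕ × ℕ)} :
    ∀ {stk : List (List (ℕ × ℕ))}, run BS exp nds stk = true → (∀ s ∈ exp, Good BS s) →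
      ∀ s ∈ stk, Good BS s := by
  induction nds with
  | nil =>
    intro stk h hexp
    have h' : beqStk stk exp = true := h
    rw [beqStk_eq _ _ h']
    exact hexp
  | cons nd nds ih =>
    intro stk h hexp
    cases stk with
    | nil => rw [run_cons_nil] at h; exact Bool.noConfusion h
    | cons st stk =>
      rw [run_cons_cons] at h
      simp only at h
      obtain ⟨hbase, hk⟩ := rec_true h
      obtain ⟨stk', hrun, hsub, hfin⟩ := kids_sound _ _ _ _ _ _ _ _ hk
      have hgood := ih hrun hexp
      intro s hs
      rcases List.mem_cons.mp hs with h1 | h1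
      · subst h1
        intro as hsort hpos hin hD
        have := hfin hgood [] as hsort hpos List.Forall₂.nil hin ?_ ?_ hD
        · rcases this with h2 | h2
          · exact h2
          · exact (baseOK_sound _ _ _ _ _ hbase h2).mono (fun _ _ => trivial)
        · intro x hx
          left
          refine ⟨rfl, ?_⟩
          have := hpos x hx
          simp only [Nat.zero_div, Nat.cast_zero, zero_div]
          exact this.le
        · rw [sumW_nil]; ring
      · exact hgood s (hsub s h1)

end Pool.Agent.PW
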