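import Pool.Agent.Lib.MP_c4588b_lc.Fold
import Pool.Agent.Lib.MP_c4588b_lc.Sound3

set_option autoImplicit false

/-!
# From the certificates to instances
-/

namespace Pool.Agent.PW

/-- A family for a list of tasks gives a family indexed by the tasks -/
theorem Fam.indexed {ι : Type*} [DecidableEq ι] (a : ι → ℝ) : ∀ (li : List ι) (U : ℤ → Prop),
    li.Nodup → Fam (li.map a) U → ∃ P : ι → ℤ → Prop,
      (∀ i ∈ li, Valid (P i) (a i) ∧ ∀ t, P i t → U t) ∧
      (∀ i ∈ li, ∀ j ∈ li, i ≠ j → ∀ t, ¬ (P i t ∧ P j t)) := by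
  intro li
  induction li with
  | nil =>
    intro U _ _
    exact ⟨fun _ _ => False, by simp, by simp⟩
  | cons x li ih =>
    intro U hnd h
    obtain ⟨T, h1, h2, h3⟩ := h
    rw [List.nodup_cons] at hnd
    obtain ⟨P, hP1, hP2⟩ := ih _ hnd.2 h3
    have hne : ∀ i ∈ li, i ≠ x := fun i hi h => hnd.1 (h ▸ hi)
    refine ⟨Function.update P x T, ?_, ?_⟩
    · intro i hi
      rcases List.mem_cons.mp hi with h | h
      · subst h
        simp only [Function.update_self]
        exact ⟨h1, h2⟩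
      · rw [Function.update_of_ne (hne i h)]
        exact ⟨(hP1 i h).1, fun t ht => ((hP1 i h).2 t ht).1⟩
    · intro i hi j hj hij t
      rcases List.mem_cons.mp hi with h | h <;> rcases List.mem_cons.mp hj with h' | h'
      · exact absurd (h.trans h'.symm) hij
      · subst h
        rw [Function.update_self, Function.update_of_ne (hne j h')]
        intro hh
        exact ((hP1 j h').2 t hh.2).2 hh.1
      · subst h'
        rw [Function.update_self, Function.update_of_ne (hne i h)]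
        intro hh
        exact ((hP1 i h).2 t hh.1).2 hh.2
      · rw [Function.update_of_ne (hne i h), Function.update_of_ne (hne j h')]
        exact hP2 i h j h' hij t

theorem SchOn.of_fam {ι : Type*} [DecidableEq ι] [Nonempty ι] {s : Finset ι} {a : ι → ℝ} {li : List ι}
    (hnd : li.Nodup) (hmem : ∀ i ∈ s, i ∈ li) (h : Fam (li.map a) (fun _ => True)) : SchOn s a := by
  classical
  obtain ⟨P, hP1, hP2⟩ := Fam.indexed a li _ hnd h
  refine ⟨fun t => if hx : ∃ i, i ∈ li ∧ P i t then hx.choose else Classical.arbitrary ι, ?_⟩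
  intro i hi
  refine (hP1 i (hmem i hi)).1.mono_set ?_
  intro t ht
  have hx : ∃ i, i ∈ li ∧ P i t := ⟨i, hmem i hi, ht⟩
  simp only [dif_pos hx]
  by_contra hne
  exact hP2 _ hx.choose_spec.1 i (hmem i hi) hne t ⟨hx.choose_spec.2, ht⟩

/-- root states for `1, …, n` tasks -/
def rootStk (c0 w0 w : ℕ) (n : ℕ) : List (List (ℕ × ℕ)) :=
  (List.range n).map (fun j => (c0, w0) :: List.replicate j (c0, w))

theorem sumW_replicate (c w : ℕ) (j : ℕ) : sumW (List.replicate j (c, w)) = j * w := by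
  induction j with
  | zero => simp [sumW_nil]
  | succ j ih => rw [List.replicate_succ, sumW_cons, ih]; simp; ring

/-- A verified region: all instances with periods at most `θ` whose smallest period is at most `hi`,
all satisfying the code `c0`, of density below `5/6 + 1/θ`. -/
theorem region_bounded {c0 w0 w n BS θ hn hd : ℕ} (hθ : 0 < θ) (hhd : 0 < hd)
    (hBS : BS * (6 * θ) = SC * (5 * θ + 6)) (hw : w * θ ≤ SC) (hw0 : w0 * hn ≤ SC * hd)
    (hn' : BS ≤ w0 + n * w) (hgood : ∀ s ∈ rootStk c0 w0 w n, Good BS s)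
    {ι : Type*} [DecidableEq ι] [Nonempty ι] (s : Finset ι) (a : ι → ℝ) (hpos : ∀ i ∈ s, 0 < a i)
    (hc : ∀ i ∈ s, sat c0 (a i)) (hle : ∀ i ∈ s, a i ≤ θ) (hex : ∃ i ∈ s, a i ≤ (hn : ℝ) / hd)
    (hD : (∑ i ∈ s, 1 / a i) < 5 / 6 + 1 / (θ : ℝ)) : SchOn s a := by
  classical
  have hθ' : (0 : ℝ) < θ := by exact_mod_cast hθ
  have hhd' : (0 : ℝ) < hd := by exact_mod_cast hhd
  have hSC : (0 : ℝ) < SC := by unfold SC; norm_num
  -- sorted list of indices
  let r : ι → ι → Prop := fun i j => a i ≤ a j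
  have : Std.Total r := ⟨fun i j => le_total (a i) (a j)⟩
  have : IsTrans ι r := ⟨fun i j k h1 h2 => le_trans h1 h2⟩
  set li := s.toList.insertionSort r with hli
  have hperm : li.Perm s.toList := List.perm_insertionSort r s.toList
  have hnd : li.Nodup := hperm.nodup_iff.mpr s.nodup_toList
  have hmem : ∀ i, i ∈ li ↔ i ∈ s := fun i => by rw [hperm.mem_iff, Finset.mem_toList]
  have hsorted : (li.map a).Pairwise (· ≤ ·) := by
    rw [List.pairwise_map]
    exact List.pairwise_insertionSort r s.toList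
  have hposl : ∀ x ∈ li.map a, 0 < x := by
    intro x hx
    obtain ⟨i, hi, rfl⟩ := List.mem_map.mp hx
    exact hpos i ((hmem i).mp hi)
  have hsum : ((li.map a).map (fun x => 1 / x)).sum = ∑ i ∈ s, 1 / a i := by
    rw [List.map_map]
    have h1 := (hperm.map ((fun x => 1 / x) ∘ a)).sum_eq
    rw [h1, Finset.sum_map_toList]
    rfl
  have hBSr : (BS : ℝ) = SC * (5 / 6 + 1 / (θ : ℝ)) := by
    have : (BS : ℝ) * (6 * θ) = SC * (5 * θ + 6) := by exact_mod_cast hBS
    field_simp
    linarith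
  have hDl : (SC : ℝ) * ((li.map a).map (fun x => 1 / x)).sum < BS := by
    rw [hsum, hBSr]
    exact mul_lt_mul_of_pos_left hD hSC
  -- the list is nonempty
  obtain ⟨i0, hi0, hi0le⟩ := hex
  have hi0li : i0 ∈ li := (hmem i0).mpr hi0
  obtain ⟨x, xs, hxs⟩ : ∃ x xs, li = x :: xs := by
    cases hc' : li with
    | nil => rw [hc'] at hi0li; exact absurd hi0li (by simp)
    | cons x xs => exact ⟨x, xs, rfl⟩
  have hxs' : x ∈ s := (hmem x).mp (by rw [hxs]; simp)
  have hax : a x ≤ (hn : ℝ) / hd := by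
    rw [hxs, List.map_cons, List.pairwise_cons] at hsorted
    rw [hxs] at hi0li
    rcases List.mem_cons.mp hi0li with h | h
    · rw [← h]; exact hi0le
    · exact le_trans (hsorted.1 _ (List.mem_map_of_mem h)) hi0le
  have hin : InSt ((c0, w0) :: List.replicate xs.length (c0, w)) (li.map a) := by
    rw [hxs, List.map_cons]
    refine List.Forall₂.cons ⟨hc x hxs', ?_⟩ ?_
    · have h1 : (w0 : ℝ) * hn ≤ SC * hd := by exact_mod_cast hw0
      calc (w0 : ℝ) * a x ≤ w0 * ((hn : ℝ) / hd) :=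
            mul_le_mul_of_nonneg_left hax (Nat.cast_nonneg _)
        _ = (w0 * hn) / hd := by ring
        _ ≤ SC := by rw [div_le_iff₀ hhd']; exact h1
    · have hall : ∀ y ∈ xs, y ∈ s := fun y hy => (hmem y).mp (by rw [hxs]; simp [hy])
      clear hxs hax
      induction xs with
      | nil => exact List.Forall₂.nil
      | cons y ys ih =>
        rw [List.length_cons, List.replicate_succ, List.map_cons]
        refine List.Forall₂.cons ⟨hc y (hall y (by simp)), ?_⟩ (ih (fun z hz => hall z (by simp [hz])))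
        have h1 : (w : ℝ) * θ ≤ SC := by exact_mod_cast hw
        have h2 := hle y (hall y (by simp))
        exact le_trans (mul_le_mul_of_nonneg_left h2 (Nat.cast_nonneg _)) h1
  refine SchOn.of_fam hnd (fun i hi => (hmem i).mpr hi) ?_
  rcases Nat.lt_or_ge xs.length n with hlt | hge
  · refine hgood _ ?_ _ hsorted hposl hin hDl
    unfold rootStk
    exact List.mem_map.mpr ⟨xs.length, List.mem_range.mpr hlt, rfl⟩
  · exfalso
    have h1 := sumW_le hin hposl
    rw [sumW_cons, sumW_replicate] at h1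
    have h2 : BS ≤ w0 + xs.length * w := le_trans hn' (by
      have := Nat.mul_le_mul_right w hge
      omega)
    have h3 : (BS : ℝ) ≤ ((w0 + xs.length * w : ℕ) : ℝ) := by exact_mod_cast h2
    simp only at h1
    linarith

/-- A verified region, after folding -/
theorem region_all {c0 w0 w n BS θ hn hd : ℕ} (hθ : 0 < θ) (hhd : 0 < hd)
    (hBS : BS * (6 * θ) = SC * (5 * θ + 6)) (hw : w * θ ≤ SC) (hw0 : w0 * hn ≤ SC * hd)
    (hn' : BS ≤ w0 + n * w) (hgood : ∀ s ∈ rootStk c0 w0 w n, Good BS s)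
    (hc0 : c0 ≤ QS * θ) (hhn : hn ≤ θ * hd)
    {ι : Type*} [DecidableEq ι] [Nonempty ι] (s : Finset ι) (a : ι → ℝ) (hpos : ∀ i ∈ s, 0 < a i)
    (hc : ∀ i ∈ s, sat c0 (a i))
    (hex : (∃ i ∈ s, a i ≤ (hn : ℝ) / hd) ∨ hn = θ * hd ∧ s.Nonempty)
    (hD : (∑ i ∈ s, 1 / a i) ≤ 5 / 6) : SchOn s a := by
  have hθ' : (0 : ℝ) < θ := by exact_mod_cast hθ
  have hhd' : (0 : ℝ) < hd := by exact_mod_cast hhd
  refine fold_reduce (θ := (θ : ℝ)) (hi := (hn : ℝ) / hd) (P := fun x => 0 < x ∧ sat c0 x) hθ' ?_ ?_ ?_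
    _ s a rfl (fun i hi => ⟨hpos i hi, hc i hi⟩) ?_ ?_ ?_
  · intro x hx
    have h0 : 0 < x := by linarith
    refine ⟨h0, ?_⟩
    have h1 : ((c0 / 2 : ℕ) : ℝ) / QS ≤ (θ : ℝ) / 2 := by
      rw [div_le_div_iff₀ QS_pos (by norm_num)]
      have h2 : c0 / 2 * 2 ≤ θ * QS := by
        have := Nat.div_mul_le_self c0 2
        calc c0 / 2 * 2 ≤ c0 := this
          _ ≤ QS * θ := hc0
          _ = θ * QS := by ring
      exact_mod_cast h2
    rcases Nat.mod_two_eq_zero_or_one c0 with h3 | h3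
    · exact Or.inl ⟨h3, by linarith⟩
    · exact Or.inr ⟨h3, by linarith⟩
  · rw [div_le_iff₀ hhd']; exact_mod_cast hhn
  · intro s' a' h1 h2 h3 h4
    exact region_bounded hθ hhd hBS hw hw0 hn' hgood s' a' (fun i hi => (h1 i hi).1)
      (fun i hi => (h1 i hi).2) h2 h3 h4
  · rcases hex with h | ⟨h, h'⟩
    · exact Or.inl h
    · right
      refine ⟨?_, h'⟩
      rw [div_eq_iff hhd'.ne']
      exact_mod_cast h
  · have : (0 : ℝ) < 1 / θ := by positivity
    linarith
  · intro i hi hlt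
    have : (0 : ℝ) < 1 / a i := by have := hpos i hi; positivity
    linarith

end Pool.Agent.PW
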