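import Pool.Agent.Lib.MP_c4588b_lc.Check

set_option autoImplicit false

/-!
# Soundness of the base schedule check
-/

namespace Pool.Agent.PW

theorem mx_eq (a b : ℕ) : mx a b = max a b := by
  unfold mx
  cases h : Nat.ble a b
  · have : ¬ a ≤ b := by
      intro h'; rw [Nat.ble_eq_true_of_le h'] at h; exact Bool.noConfusion h
    show a = max a b
    omega
  · have : a ≤ b := Nat.le_of_ble_eq_true h
    exact (max_eq_right this).symm

theorem scan_zero (num den lim endt G R t M : ℕ) :
    scan num den lim endt 0 G R t M = Bool.rec (motive := fun _ => ℕ) 0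
      (Bool.rec (motive := fun _ => ℕ) 0 M (Nat.beq t endt)) (Nat.beq R num) := rfl

theorem scan_succ (num den lim endt n G R t M : ℕ) :
    scan num den lim endt (n + 1) G R t M = Bool.rec (motive := fun _ => ℕ) 0
      (scan num den lim endt n (G / 64) (num - (den * (G % 64 + 1) - R)) (t + (G % 64 + 1))
        (M ||| 2 ^ (t + (G % 64 + 1))))
      (Nat.ble (den * (G % 64 + 1) - R) lim) := rfl

open Classical in
theorem scan_sound (num den lim endt : ℕ) (lo : ℤ) (hlim : (lim : ℤ) = den - lo)
    (hlo : lo = 0 ∨ lo = 1) (hden : 1 ≤ den) (hnd : den ≤ num) (n : ℕ) :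
    ∀ G R t M : ℕ, R ≤ num → scan num den lim endt n G R t M ≠ 0 →
      ∃ (O : ℕ → Prop) (q : ℕ → ℤ), t ≤ endt ∧ q 0 = R ∧ q (endt - t) = num ∧
        (∀ k < endt - t, lo ≤ q k ∧ q k ≤ num ∧
          q (k + 1) + den ≤ q k + (if O k then (num : ℤ) else 0)) ∧
        (∀ k < endt - t, O k → (scan num den lim endt n G R t M).testBit (t + 1 + k) = true) ∧
        (∀ k, M.testBit k = true → (scan num den lim endt n G R t M).testBit k = true) := by
  induction n with
  | zero =>
    intro G R t M hR hne
    rw [scan_zero] at hne ⊢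
    cases h1 : Nat.beq R num
    · rw [h1] at hne; exact absurd rfl hne
    · rw [h1] at hne
      cases h2 : Nat.beq t endt
      · rw [h2] at hne; exact absurd rfl hne
      · have e1 : R = num := Nat.eq_of_beq_eq_true h1
        have e2 : t = endt := Nat.eq_of_beq_eq_true h2
        subst e1; subst e2
        refine ⟨fun _ => False, fun _ => (R : ℤ), le_rfl, rfl, rfl, ?_, ?_, ?_⟩
        · intro k hk; omega
        · intro k hk; omega
        · intro k hk; exact hk
  | succ n ih =>
    intro G R t M hR hne
    rw [scan_succ] at hne ⊢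
    set g := G % 64 + 1 with hg
    set x := den * g - R with hx
    cases h1 : Nat.ble x lim
    · rw [h1] at hne; exact absurd rfl hne
    · rw [h1] at hne
      have hxl : x ≤ lim := Nat.le_of_ble_eq_true h1
      obtain ⟨O', q', ht, hq0, hqe, hstep, hO, hM⟩ := ih (G / 64) (num - x) (t + g)
        (M ||| 2 ^ (t + g)) (Nat.sub_le _ _) hne
      have hxnum : x ≤ num := by
        have : (x : ℤ) ≤ den - lo := by rw [← hlim]; exact_mod_cast hxl
        rcases hlo with h | h <;> omega
      have hR' : ((num - x : ℕ) : ℤ) = num - x := by push_cast [Nat.cast_sub hxnum]; ring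
      have hx1 : (den : ℤ) * g - R ≤ x := by
        have : den * g ≤ x + R := by omega
        have : ((den * g : ℕ) : ℤ) ≤ ((x + R : ℕ) : ℤ) := by exact_mod_cast this
        push_cast at this
        linarith
      have hx2 : (x : ℤ) ≤ den - lo := by rw [← hlim]; exact_mod_cast hxl
      have hg1 : 1 ≤ g := by omega
      refine ⟨fun k => k + 1 = g ∨ (g ≤ k ∧ O' (k - g)),
        fun k => if k < g then (R : ℤ) - k * den else q' (k - g), by omega, ?_, ?_, ?_, ?_, ?_⟩
      · simp
      · have h3 : ¬ (endt - t < g) := by omega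
        have h4 : endt - t - g = endt - (t + g) := by omega
        simp only [h3, if_false, h4, hqe]
      · intro k hk
        rcases Nat.lt_or_ge k g with hkg | hkg
        · -- inside the gap
          have hkd : (k : ℤ) * den ≤ (g - 1) * den := by
            apply mul_le_mul_of_nonneg_right _ (by omega)
            omega
          have hlow : lo ≤ (R : ℤ) - k * den := by nlinarith
          have hkd0 : 0 ≤ (k : ℤ) * den := by positivity
          have hup : (R : ℤ) - k * den ≤ num := by
            have : (R : ℤ) ≤ num := by exact_mod_cast hR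
            linarith
          simp only [hkg, if_true]
          refine ⟨hlow, hup, ?_⟩
          rcases Nat.lt_or_ge (k + 1) g with h5 | h5
          · have h6 : ¬ (k + 1 = g) := by omega
            have h7 : ¬ (g ≤ k) := by omega
            simp only [h5, if_true, h6, h7, false_and, or_self, if_false]
            push_cast; ring_nf; exact le_rfl
          · have h6 : k + 1 = g := by omega
            have h7 : ¬ (k + 1 < g) := by omega
            have h8 : k + 1 - g = 0 := by omega
            rw [if_neg h7, h8, hq0, hR', if_pos (Or.inl h6)]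
            have h9 : (k : ℤ) = g - 1 := by omega
            rw [h9]
            nlinarith
        · have h5 : ¬ (k < g) := by omega
          have h6 : ¬ (k + 1 < g) := by omega
          have h7 : k + 1 - g = (k - g) + 1 := by omega
          have h8 : ¬ (k + 1 = g) := by omega
          simp only [h5, if_false, h6, h7, h8, hkg, true_and, false_or]
          exact hstep (k - g) (by omega)
      · intro k hk hOk
        rcases hOk with h | ⟨h, hO'⟩
        · have h9 : t + 1 + k = t + g := by omega
          rw [h9]
          apply hM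
          rw [Nat.testBit_or, Nat.testBit_two_pow_self, Bool.or_true]
        · have h9 : t + 1 + k = t + g + 1 + (k - g) := by omega
          rw [h9]
          exact hO (k - g) (by omega) hO'
      · intro k hk
        apply hM
        rw [Nat.testBit_or, hk, Bool.true_or]

theorem emod_succ_toNat {p : ℕ} (hp : 0 < p) (z : ℤ) :
    ((z + 1) % (p : ℤ)).toNat = if (z % (p : ℤ)).toNat + 1 < p then (z % (p : ℤ)).toNat + 1 else 0 := by
  have hp' : (0 : ℤ) < p := by exact_mod_cast hp
  have h1 := Int.emod_nonneg z (ne_of_gt hp')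
  have h2 := Int.emod_lt_of_pos z hp'
  have h3 : (z + 1) % (p : ℤ) = (z % p + 1) % p := by rw [Int.emod_add_emod]
  rw [h3]
  split_ifs with h
  · rw [Int.emod_eq_of_lt (by omega) (by omega)]; omega
  · have : z % (p : ℤ) + 1 = p := by omega
    rw [this, Int.emod_self]; rfl

theorem group_sound (p c den off n G : ℕ) (hden : 1 ≤ den) (hnd : den ≤ c / 2) (hoff : off < p)
    (hM : scan (c / 2) den (den + c % 2 - 1) (off + p) n G (c / 2) off 0 ≠ 0) :
    ∃ T : ℤ → Prop,
      (∀ b : ℝ, (c % 2 = 0 ∧ ((c / 2 : ℕ) : ℝ) / den ≤ b ∨ c % 2 = 1 ∧ ((c / 2 : ℕ) : ℝ) / den < b) →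
        Valid T b) ∧
      ∀ t, T t → ((scan (c / 2) den (den + c % 2 - 1) (off + p) n G (c / 2) off 0 % 2 ^ p) |||
        (scan (c / 2) den (den + c % 2 - 1) (off + p) n G (c / 2) off 0 >>> p)).testBit
          (t % (p : ℤ)).toNat = true := by
  classical
  have hp : 0 < p := by omega
  have hp' : (0 : ℤ) < p := by exact_mod_cast hp
  have hc2 : c % 2 = 0 ∨ c % 2 = 1 := by omega
  obtain ⟨O, q, _, hq0, hqe, hstep, hO, _⟩ := scan_sound (c / 2) den (den + c % 2 - 1) (off + p)
    (1 - (c % 2 : ℕ)) (by omega) (by omega) hden hnd n G (c / 2) off 0 le_rfl hM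
  set M := scan (c / 2) den (den + c % 2 - 1) (off + p) n G (c / 2) off 0
  have hsub : off + p - off = p := by omega
  rw [hsub] at hqe hstep hO
  have hr : ∀ z : ℤ, (z % (p : ℤ)).toNat < p := by
    intro z
    have h1 := Int.emod_nonneg z (ne_of_gt hp')
    have h2 := Int.emod_lt_of_pos z hp'
    omega
  refine ⟨fun t => O ((t - (off + 1)) % (p : ℤ)).toNat, ?_, ?_⟩
  · intro b hb
    refine valid_of_potential (num := ((c / 2 : ℕ) : ℤ)) (den := den) (lo := 1 - (c % 2 : ℕ))
      (by exact_mod_cast hden) (fun t => q ((t - (off + 1)) % (p : ℤ)).toNat) ?_ ?_ ?_ ?_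
    · intro t; exact (hstep _ (hr _)).1
    · intro t; exact (hstep _ (hr _)).2.1
    · intro t
      have h1 := (hstep _ (hr (t - (off + 1)))).2.2
      have h2 : (t + 1 - (off + 1) : ℤ) = (t - (off + 1)) + 1 := by ring
      have h3 : q (((t + 1 - (off + 1) : ℤ) % (p : ℤ)).toNat)
          = q (((t - (off + 1)) % (p : ℤ)).toNat + 1) := by
        rw [h2, emod_succ_toNat hp]
        split_ifs with h
        · rfl
        · have h4 := hr (t - (off + 1))
          have h5 : ((t - (off + 1)) % (p : ℤ)).toNat + 1 = p := by omega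
          rw [h5, hq0, hqe]
      show q (((t + 1 - (off + 1) : ℤ) % (p : ℤ)).toNat) + den ≤ _
      rw [h3]
      convert h1 using 2
    · rcases hb with ⟨h, hb⟩ | ⟨h, hb⟩
      · left; refine ⟨by omega, ?_⟩
        push_cast at hb ⊢; exact hb
      · right; refine ⟨by omega, ?_⟩
        push_cast at hb ⊢; exact hb
  · intro t ht
    have h1 := hO _ (hr (t - (off + 1))) ht
    set r := ((t - (off + 1)) % (p : ℤ)).toNat with hrdef
    have hrp : r < p := hr _
    have h2 : t % (p : ℤ) = ((off + 1 + r : ℕ) : ℤ) % p := by
      have h3 : ((r : ℕ) : ℤ) = (t - (off + 1)) % (p : ℤ) := by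
        rw [hrdef]; exact Int.toNat_of_nonneg (Int.emod_nonneg _ (ne_of_gt hp'))
      push_cast
      rw [h3, Int.add_emod_emod]
      congr 1; ring
    rw [Nat.testBit_or, Nat.testBit_mod_two_pow, Nat.testBit_shiftRight]
    rcases Nat.lt_or_ge (off + 1 + r) p with h | h
    · have h3 : (t % (p : ℤ)).toNat = off + 1 + r := by
        rw [h2, Int.emod_eq_of_lt (by omega) (by omega)]; omega
      rw [h3, h1]
      simp [h]
    · have h3 : (t % (p : ℤ)).toNat = off + 1 + r - p := by
        have h4 : ((off + 1 + r : ℕ) : ℤ) = ((off + 1 + r - p : ℕ) : ℤ) + p * 1 := by omega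
        rw [h2, h4, Int.add_mul_emod_self_left, Int.emod_eq_of_lt (by omega) (by omega)]; omega
      have h5 : p + (off + 1 + r - p) = off + 1 + r := by omega
      rw [h3, h5, h1, Bool.or_true]

end Pool.Agent.PW
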