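import Pool.Agent.Lib.MP_c4588b_lc.Sound1

set_option autoImplicit false

/-!
# Families of disjoint day sets, and soundness of `baseOK`
-/

namespace Pool.Agent.PW

/-- the tasks with periods `as` can be performed on pairwise disjoint sets of days inside `U` -/
def Fam : List ℝ → (ℤ → Prop) → Prop
  | [], _ => True
  | a :: as, U => ∃ T : ℤ → Prop, Valid T a ∧ (∀ t, T t → U t) ∧ Fam as (fun t => U t ∧ ¬ T t)

theorem Fam.mono {as : List ℝ} : ∀ {U V : ℤ → Prop}, (∀ t, U t → V t) → Fam as U → Fam as V := by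
  induction as with
  | nil => intro U V _ _; trivial
  | cons a as ih =>
    intro U V hUV h
    obtain ⟨T, h1, h2, h3⟩ := h
    exact ⟨T, h1, fun t ht => hUV t (h2 t ht), ih (fun t ht => ⟨hUV t ht.1, ht.2⟩) h3⟩

theorem Fam.append {as bs : List ℝ} : ∀ {U V W : ℤ → Prop}, (∀ t, U t → ¬ V t) → (∀ t, U t → W t) →
    (∀ t, V t → W t) → Fam as U → Fam bs V → Fam (as ++ bs) W := by
  induction as with
  | nil => intro U V W _ _ hVW _ h; exact h.mono hVW
  | cons a as ih =>
    intro U V W hUV hUW hVW h hb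
    obtain ⟨T, h1, h2, h3⟩ := h
    refine ⟨T, h1, fun t ht => hUW t (h2 t ht), ?_⟩
    exact ih (U := fun t => U t ∧ ¬ T t) (V := V) (fun t ht => hUV t ht.1)
      (fun t ht => ⟨hUW t ht.1, ht.2⟩) (fun t ht => ⟨hVW t ht, fun hT => hUV t (h2 t hT) ht⟩) h3 hb

open Classical in
theorem Fam.group {T : ℤ → Prop} {b : ℝ} {F : ℤ → ℤ}
    (hF : ∀ t, F (t + 1) = F t + (if T t then 1 else 0)) (hT : Valid T b) {m : ℕ} {blk : List ℝ} :
    ∀ r0 : ℕ, blk.length + r0 ≤ m → (∀ x ∈ blk, (m : ℝ) * b ≤ x) →
      Fam blk (fun t => T t ∧ (r0 : ℤ) ≤ F t % (m : ℤ)) := by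
  induction blk with
  | nil => intro r0 _ _; trivial
  | cons x xs ih =>
    intro r0 hlen hx
    simp only [List.length_cons] at hlen
    refine ⟨fun t => T t ∧ F t % (m : ℤ) = r0, ?_, ?_, ?_⟩
    · exact hT.split hF (by omega) (hx x (by simp))
    · intro t ht; exact ⟨ht.1, le_of_eq ht.2.symm⟩
    · refine (ih (r0 + 1) (by omega) (fun y hy => hx y (by simp [hy]))).mono ?_
      intro t ht
      have h2 := ht.2
      push_cast at h2
      exact ⟨⟨ht.1, by omega⟩, fun h => by omega⟩

/-- the code `c` is satisfied by the period `x` -/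
def sat (c : ℕ) (x : ℝ) : Prop :=
  (c % 2 = 0 ∧ ((c / 2 : ℕ) : ℝ) / QS ≤ x) ∨ (c % 2 = 1 ∧ ((c / 2 : ℕ) : ℝ) / QS < x)

theorem QS_pos : (0 : ℝ) < QS := by unfold QS; norm_num

theorem sat.mono {c c' : ℕ} {x : ℝ} (h : c ≤ c') (hs : sat c' x) : sat c x := by
  have hle : ((c / 2 : ℕ) : ℝ) / QS ≤ ((c' / 2 : ℕ) : ℝ) / QS := by
    apply div_le_div_of_nonneg_right _ QS_pos.le
    have : c / 2 ≤ c' / 2 := by omega
    exact_mod_cast this
  rcases Nat.lt_or_ge (c / 2) (c' / 2) with hlt | hge
  · have hlt' : ((c / 2 : ℕ) : ℝ) / QS < ((c' / 2 : ℕ) : ℝ) / QS := by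
      apply div_lt_div_of_pos_right _ QS_pos
      exact_mod_cast hlt
    have hx : ((c / 2 : ℕ) : ℝ) / QS < x := by
      rcases hs with ⟨_, h1⟩ | ⟨_, h1⟩ <;> linarith
    rcases Nat.mod_two_eq_zero_or_one c with h2 | h2
    · exact Or.inl ⟨h2, hx.le⟩
    · exact Or.inr ⟨h2, hx⟩
  · rcases hs with ⟨h2, h1⟩ | ⟨h2, h1⟩
    · exact Or.inl ⟨by omega, by linarith⟩
    · rcases Nat.mod_two_eq_zero_or_one c with h3 | h3
      · exact Or.inl ⟨h3, by linarith⟩
      · exact Or.inr ⟨h3, by linarith⟩

theorem sat.up {c : ℕ} {x y : ℝ} (hs : sat c x) (h : x ≤ y) : sat c y := by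
  rcases hs with ⟨h2, h1⟩ | ⟨h2, h1⟩
  · exact Or.inl ⟨h2, by linarith⟩
  · exact Or.inr ⟨h2, by linarith⟩

theorem sat_max {c c' : ℕ} {x : ℝ} (h : sat c x) (h' : sat c' x) : sat (max c c') x := by
  rcases le_total c c' with hh | hh
  · rw [max_eq_right hh]; exact h'
  · rw [max_eq_left hh]; exact h

theorem le_of_not_sat {c : ℕ} {x : ℝ} (h : ¬ sat c x) : x ≤ ((c / 2 : ℕ) : ℝ) / QS := by
  by_contra hcon
  push Not at hcon
  apply h
  rcases Nat.mod_two_eq_zero_or_one c with h3 | h3
  · exact Or.inl ⟨h3, hcon.le⟩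
  · exact Or.inr ⟨h3, hcon⟩

/-- the list `as` is cut into consecutive blocks matching the groups, whose thresholds are satisfied -/
def Blocks : List ℕ → List ℝ → Prop
  | [], as => as = []
  | e :: L, as => ∃ (blk rest : List ℝ) (y : ℝ), as = blk ++ rest ∧ blk.length = e % 16 ∧
      sat (e / 16) y ∧ (∀ x ∈ blk, y ≤ x) ∧ Blocks L rest

theorem baseOK_cons (p e : ℕ) (L : List ℕ) (D acc : ℕ) :
    baseOK p (e :: L) D acc =
      (let c := e / 16; let den := QS * (e % 16); let off := D % 1024; let n := (D / 1024) % 1024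
       let G := D / 1048576
       let M := scan (c / 2) den (den + c % 2 - 1) (off + p) n G (c / 2) off 0
       let Rm := (M % 2 ^ p) ||| (M >>> p)
       Bool.rec (motive := fun _ => Bool) false
            (Bool.rec (motive := fun _ => Bool) false
              (Bool.rec (motive := fun _ => Bool) false
                (Bool.rec (motive := fun _ => Bool) false
                  (baseOK p L (G >>> (6 * n)) (acc ||| Rm))
                  (Nat.beq (acc &&& Rm) 0))
                (Nat.ble 1 M))
              (Nat.ble (off + 1) p))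
            (Nat.ble den (c / 2))) := rfl

theorem rec_true {b x : Bool} (h : Bool.rec (motive := fun _ => Bool) false x b = true) :
    b = true ∧ x = true := by
  cases b
  · exact absurd h (by simp)
  · exact ⟨rfl, h⟩

theorem baseOK_sound (p : ℕ) (L : List ℕ) : ∀ (D acc : ℕ) (as : List ℝ),
    baseOK p L D acc = true → Blocks L as →
      Fam as (fun t => acc.testBit (t % (p : ℤ)).toNat = false) := by
  induction L with
  | nil =>
    intro D acc as _ h
    have : as = [] := h
    subst this
    trivial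
  | cons e L ih =>
    intro D acc as h hB
    obtain ⟨blk, rest, y, has, hlen, hsat, hy, hrest⟩ := hB
    rw [baseOK_cons] at h
    set c := e / 16 with hc
    set den := QS * (e % 16) with hden
    set off := D % 1024
    set n := (D / 1024) % 1024
    set G := D / 1048576
    obtain ⟨h1, h⟩ := rec_true h
    obtain ⟨h2, h⟩ := rec_true h
    obtain ⟨h3, h⟩ := rec_true h
    obtain ⟨h4, h⟩ := rec_true h
    have h1 : den ≤ c / 2 := Nat.le_of_ble_eq_true h1
    have h2 : off + 1 ≤ p := Nat.le_of_ble_eq_true h2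
    have h3 := Nat.le_of_ble_eq_true h3
    have h4 := Nat.eq_of_beq_eq_true h4
    have hIH := ih _ _ rest h hrest
    rcases Nat.eq_zero_or_pos (e % 16) with hm | hm
    · -- empty group
      have : blk = [] := by
        rw [← List.length_eq_zero_iff]; omega
      subst this
      simp only [List.nil_append] at has
      subst has
      refine hIH.mono ?_
      intro t ht
      rw [Nat.testBit_or, Bool.or_eq_false_iff] at ht
      exact ht.1
    · have hden1 : 1 ≤ den := by
        rw [hden]; exact Nat.mul_pos (by unfold QS; norm_num) hm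
      obtain ⟨T, hT, hTm⟩ := group_sound p c den off n G hden1 h1 (by omega) (by omega)
      set M := scan (c / 2) den (den + c % 2 - 1) (off + p) n G (c / 2) off 0
      have hm' : (0 : ℝ) < ((e % 16 : ℕ) : ℝ) := by exact_mod_cast hm
      have hv : Valid T (y / ((e % 16 : ℕ) : ℝ)) := by
        apply hT
        have hdd : (den : ℝ) = QS * ((e % 16 : ℕ) : ℝ) := by rw [hden]; push_cast; ring
        rcases hsat with ⟨h5, h6⟩ | ⟨h5, h6⟩
        · left; refine ⟨h5, ?_⟩
          rw [hdd, ← div_div]
          exact div_le_div_of_nonneg_right h6 hm'.le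
        · right; refine ⟨h5, ?_⟩
          rw [hdd, ← div_div]
          exact div_lt_div_of_pos_right h6 hm'
      obtain ⟨F, hF⟩ := exists_count T
      have hfam : Fam blk T := by
        refine (Fam.group hF hv (m := e % 16) 0 (by omega) ?_).mono (fun t ht => ht.1)
        intro x hx
        rw [mul_div_cancel₀ _ (ne_of_gt hm')]
        exact hy x hx
      rw [has]
      refine Fam.append (U := T) ?_ ?_ ?_ hfam hIH
      · intro t ht hV
        have := hTm t ht
        rw [Nat.testBit_or, Bool.or_eq_false_iff] at hV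
        rw [hV.2] at this
        exact Bool.noConfusion this
      · intro t ht
        have h7 := hTm t ht
        have h8 : (acc &&& ((M % 2 ^ p) ||| (M >>> p))).testBit (t % (p : ℤ)).toNat = false := by
          rw [h4, Nat.zero_testBit]
        rw [Nat.testBit_and, h7, Bool.and_true] at h8
        exact h8
      · intro t ht
        rw [Nat.testBit_or, Bool.or_eq_false_iff] at ht
        exact ht.1

end Pool.Agent.PW
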